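import Mathlib

set_option autoImplicit false

namespace Pool.Agent.Helper983.GC

open Finset MeasureTheory

/-- block sizes -/
def Mm (k : ℕ) : ℕ := 2 ^ (20 * k + 100)

/-- errors -/
noncomputable def dl (k : ℕ) : ℝ := 2 * (1 / 2 : ℝ) ^ k

/-- finite combinatorial data (Davie-type matrices) -/
structure Dsg where
  N : ℕ → ℕ
  A : ℕ → ℕ → ℕ → ℝ
  B : ℕ → ℕ → ℕ → ℝ
  Npos : ∀ k, 0 < N k
  A1 : ∀ k j g, |A k j g| ≤ 1
  B1 : ∀ k i g, |B k i g| ≤ 1
  A0 : ∀ k j g, N k ≤ j → A k j g = 0
  B0 : ∀ k i g, N (k + 1) ≤ i → B k i g = 0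
  AA : ∀ k j j', j < N k → j' < N k →
    ∑ g ∈ range (Mm k), A k j g * A k j' g = if j = j' then (Mm k : ℝ) else 0
  AB : ∀ k j i, ∑ g ∈ range (Mm k), A k j g * B k i g = 0
  BB : ∀ k i i', i < N (k + 1) → i' < N (k + 1) →
    ∑ g ∈ range (Mm k), B k i g * B k i' g = if i = i' then (Mm k : ℝ) else 0
  S1 : ∀ k g h, g < Mm k → h < Mm k →
    |(∑ i ∈ range (N (k + 1)), B k i g * B k i h) / N (k + 1) -
      (∑ j ∈ range (N k), A k j g * A k j h) / N k| ≤ dl k
  S2 : ∀ k g h, g < Mm k → h < Mm (k + 1) →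
    |(∑ i ∈ range (N (k + 1)), B k i g * A (k + 1) i h) / N (k + 1)| ≤ dl k

/-- the point set: level and position in the block -/
abbrev Om := ℕ × ℕ

instance fact40 : Fact ((1 : ENNReal) ≤ 40) := ⟨by norm_num⟩

/-- the ambient space `ℓ_40` -/
abbrev L := lp (fun _ : Om => ℝ) 40

/-- element of `L` from a finitely supported function -/
noncomputable def mkL (f : Om → ℝ) (h : (Function.support f).Finite) : L :=
  ⟨f, (memℓp_zero h).of_exponent_ge (by simp)⟩

theorem mkL_apply (f : Om → ℝ) (h : (Function.support f).Finite) (w : Om) : mkL f h w = f w := rfl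

variable (D : Dsg)

/-- the basic vectors, as functions: `A k j` on the block `k` and `B (k-1) j` on the block `k-1` -/
noncomputable def eF (k j : ℕ) : Om → ℝ := fun w =>
  if w.2 < Mm w.1 then
    (if w.1 = k then D.A k j w.2 else 0) + (if w.1 + 1 = k then D.B w.1 j w.2 else 0)
  else 0

theorem Mm_mono {i k : ℕ} (h : i ≤ k) : Mm i ≤ Mm k :=
  Nat.pow_le_pow_right (by norm_num) (by omega)

/-- a finite set which contains the points of the blocks `≤ k` -/
def blk (k : ℕ) : Finset Om := range (k + 1) ×ˢ range (Mm k)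

theorem eF_zero_of (k j : ℕ) (w : Om) (hw : w ∉ blk k) : eF D k j w = 0 := by
  unfold eF
  split_ifs with h1 h2 h3 h3
  · omega
  · exact absurd (Finset.mem_product.2 ⟨Finset.mem_range.2 (by omega),
      Finset.mem_range.2 (h1.trans_le (Mm_mono (by omega)))⟩) hw
  · exact absurd (Finset.mem_product.2 ⟨Finset.mem_range.2 (by omega),
      Finset.mem_range.2 (h1.trans_le (Mm_mono (by omega)))⟩) hw
  · simp
  · rfl

theorem eF_finite (k j : ℕ) : (Function.support (eF D k j)).Finite :=
  (blk k).finite_toSet.subset fun w hw => by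
    by_contra h
    exact hw (eF_zero_of D k j w h)

/-- basic vectors -/
noncomputable def e (k j : ℕ) : L := mkL (eF D k j) (eF_finite D k j)

theorem e_apply (k j : ℕ) (w : Om) : e D k j w = eF D k j w := mkL_apply _ _ _

/-- the closed span of the basic vectors -/
noncomputable def Zs : Submodule ℝ L :=
  (Submodule.span ℝ (Set.range (fun p : ℕ × ℕ => e D p.1 p.2))).topologicalClosure

theorem e_mem (k j : ℕ) : e D k j ∈ Zs D :=
  Submodule.le_topologicalClosure _ (Submodule.subset_span ⟨(k, j), rfl⟩)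

noncomputable instance : CompleteSpace (Zs D) := by
  unfold Zs; infer_instance

/-- basic vectors in `Zs` -/
noncomputable def eZ (k j : ℕ) : Zs D := ⟨e D k j, e_mem D k j⟩

theorem eZ_coe (k j : ℕ) : ((eZ D k j : Zs D) : L) = e D k j := rfl

/-- the functional `x ↦ avg_g A_j(g) x(k,g)` -/
noncomputable def al (k j : ℕ) (x : L) : ℝ :=
  (∑ g ∈ range (Mm k), D.A k j g * x (k, g)) / Mm k

/-- the trace functional at the level `k` -/
noncomputable def bt (k : ℕ) (V : ℕ → ℕ → L) : ℝ :=
  (∑ j ∈ range (D.N k), al D k j (V k j)) / D.N k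

/-- the probability measure with density `(15/16)(1-t^2)^2` on `[-1,1]` -/
noncomputable def nu : Measure ℝ :=
  (volume.restrict (Set.Icc (-1) 1)).withDensity
    (fun t => ENNReal.ofReal (15 / 16 * (1 - t ^ 2) ^ 2))

/-- minus the logarithmic derivative of the density of `nu` -/
noncomputable def psi (t : ℝ) : ℝ := 4 * t / (1 - t ^ 2)

/-- the product measure -/
noncomputable def P (ι : Type) [Fintype ι] : Measure (ι → ℝ) := Measure.pi (fun _ => nu)

/-- the constant in the moment inequality -/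
noncomputable def Cm : ℝ := 2 * (Nat.factorial 40 : ℝ)

/-- the random point `x0 + ∑ δ_k u_{k,j} e_{k,j}` -/
noncomputable def pt (m J : ℕ) (δ : ℕ → ℝ) (x0 : Zs D) (u : Fin m × Fin J → ℝ) : Zs D :=
  x0 + ∑ p : Fin m × Fin J, (δ p.1 * u p) • eZ D p.1 p.2

/-- the averaged derivative of `R` in the direction `e_{k,j}` -/
noncomputable def Tv (m J : ℕ) (δ : ℕ → ℝ) (x0 : Zs D) (R : Zs D → Zs D) (p : Fin m × Fin J) :
    Zs D :=
  (δ p.1)⁻¹ • ∫ u, psi (u p) • R (pt D m J δ x0 u) ∂P (Fin m × Fin J)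

end Pool.Agent.Helper983.GC
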