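import Pool.Agent.Helper983.GC.Defs

set_option autoImplicit false

namespace Pool.Agent.Helper983.GC

open Finset MeasureTheory

variable (D : Dsg)



theorem Z_separable : TopologicalSpace.SeparableSpace (Zs D) := by
  have h1 : TopologicalSpace.IsSeparable (Set.range (fun p : ℕ × ℕ => e D p.1 p.2)) :=
    (Set.countable_range _).isSeparable
  have h2 : TopologicalSpace.IsSeparable ((Zs D : Submodule ℝ L) : Set L) := by
    unfold Zs
    rw [Submodule.topologicalClosure_coe]
    exact (h1.span (R := ℝ)).closure
  exact h2.separableSpace

end Pool.Agent.Helper983.GC
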