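import Pool.Agent.Helper983.GC.Defs
import Pool.Agent.Helper983.SL.P_design

set_option autoImplicit false

namespace Pool.Agent.Helper983.SL

open Finset

theorem exists_design' : ∃ D : Design, (∀ k, D.M k = 2 ^ (20 * k + 100)) ∧
    (∀ k, D.δ k = 2 * (1 / 2 : ℝ) ^ k) := by
  classical
  obtain ⟨N, hN, s, t, ep, hs, ht, hst, hs1, ht1, hep⟩ := j11423_data
  have hNp : ∀ k, (0 : ℝ) < N k := fun k => by exact_mod_cast hN k
  set A : ℕ → ℕ → ℕ → ℝ := fun k j g =>
    if h : j < N k then sg (ep k ⟨j, h⟩) * chi (s k ⟨j, h⟩) (bits (20 * k + 100) g) else 0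
    with hA
  set B : ℕ → C → ℕ → ℕ → ℝ := fun k l i g =>
    if h : l.1 < N k ∧ i < N (k + 1) then
      chi (t k (⟨l.1, h.1⟩, l.2) ⟨i, h.2⟩) (bits (20 * k + 100) g) else 0 with hB
  have hAv : ∀ k j g (h : j < N k),
      A k j g = sg (ep k ⟨j, h⟩) * chi (s k ⟨j, h⟩) (bits (20 * k + 100) g) :=
    fun k j g h => dif_pos h
  have hA0 : ∀ k j g, N k ≤ j → A k j g = 0 := fun k j g h => dif_neg (not_lt.2 h)
  have hBv : ∀ k (l : C) i g (h1 : l.1 < N k) (h2 : i < N (k + 1)),
      B k l i g = chi (t k (⟨l.1, h1⟩, l.2) ⟨i, h2⟩) (bits (20 * k + 100) g) :=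
    fun k l i g h1 h2 => dif_pos ⟨h1, h2⟩
  have hB0 : ∀ k (l : C) i g, (N k ≤ l.1 ∨ N (k + 1) ≤ i) → B k l i g = 0 :=
    fun k l i g h => dif_neg fun h' => h.elim (not_le.2 h'.1) (not_le.2 h'.2)
  refine ⟨⟨N, fun k => 2 ^ (20 * k + 100), A, B, fun k => 2 * (1 / 2 : ℝ) ^ k,
    hN, fun k => Nat.two_pow_pos _, ?_, ?_, hA0, hB0, ?_, ?_, ?_, ?_, ?_, ?_, ?_⟩,
    fun _ => rfl, fun _ => rfl⟩
  · intro k j g
    rcases lt_or_ge j (N k) with h | h
    · rw [hAv k j g h, abs_mul, j11423_sg_abs, chi_abs]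
      norm_num
    · rw [hA0 k j g h]
      simp
  · intro k l i g
    by_cases h : l.1 < N k ∧ i < N (k + 1)
    · rw [hBv k l i g h.1 h.2, chi_abs]
    · rw [hB0 k l i g (by by_contra h'; push Not at h'; exact h h')]
      simp
  · intro k j j' hj hj'
    have h1 : ∀ g, A k j g * A k j' g = (sg (ep k ⟨j, hj⟩) * sg (ep k ⟨j', hj'⟩)) *
        (chi (s k ⟨j, hj⟩) (bits (20 * k + 100) g) *
          chi (s k ⟨j', hj'⟩) (bits (20 * k + 100) g)) := by
      intro g
      rw [hAv k j g hj, hAv k j' g hj']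
      ring
    rw [Finset.sum_congr rfl fun g _ => h1 g, ← Finset.mul_sum, j11423_orthb]
    by_cases h : j = j'
    · subst h
      rw [if_pos rfl, if_pos rfl, j11423_sg_sq, one_mul]
      push_cast
      rfl
    · rw [if_neg h, if_neg, mul_zero]
      intro h2
      exact h (congrArg Fin.val (hs k h2))
  · intro k j l i
    rcases lt_or_ge j (N k) with hj | hj
    · by_cases h : l.1 < N k ∧ i < N (k + 1)
      · have h1 : ∀ g, A k j g * B k l i g = sg (ep k ⟨j, hj⟩) *
            (chi (s k ⟨j, hj⟩) (bits (20 * k + 100) g) *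
              chi (t k (⟨l.1, h.1⟩, l.2) ⟨i, h.2⟩) (bits (20 * k + 100) g)) := by
          intro g
          rw [hAv k j g hj, hBv k l i g h.1 h.2]
          ring
        rw [Finset.sum_congr rfl fun g _ => h1 g, ← Finset.mul_sum, j11423_orthb,
          if_neg (hst _ _ _ _), mul_zero]
      · have h' : N k ≤ l.1 ∨ N (k + 1) ≤ i := by
          by_contra h'; push Not at h'; exact h h'
        exact Finset.sum_eq_zero fun g _ => by rw [hB0 k l i g h', mul_zero]
    · exact Finset.sum_eq_zero fun g _ => by rw [hA0 k j g hj, zero_mul]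
  · intro k l l' i i' hl hl' hi hi'
    have h1 : ∀ g, B k l i g * B k l' i' g =
        (chi (t k (⟨l.1, hl⟩, l.2) ⟨i, hi⟩) (bits (20 * k + 100) g) *
          chi (t k (⟨l'.1, hl'⟩, l'.2) ⟨i', hi'⟩) (bits (20 * k + 100) g)) := by
      intro g
      rw [hBv k l i g hl hi, hBv k l' i' g hl' hi']
    rw [Finset.sum_congr rfl fun g _ => h1 g, j11423_orthb]
    by_cases h : l = l' ∧ i = i'
    · obtain ⟨rfl, rfl⟩ := h
      rw [if_pos rfl, if_pos ⟨rfl, rfl⟩]
      push_cast
      rfl
    · rw [if_neg h, if_neg]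
      intro h2
      obtain ⟨h3, h4⟩ := ht k _ _ _ _ h2
      apply h
      constructor
      · rw [Prod.mk.injEq] at h3
        exact Prod.ext (congrArg Fin.val h3.1) h3.2
      · exact congrArg Fin.val h4
  · intro k l g h hl hg hh
    have h1 : ∑ i ∈ range (N (k + 1)), B k l i g * B k l i h =
        ∑ i : Fin (N (k + 1)), chi (t k (⟨l.1, hl⟩, l.2) i) (bits (20 * k + 100) g) *
          chi (t k (⟨l.1, hl⟩, l.2) i) (bits (20 * k + 100) h) := by
      rw [Finset.sum_range]
      refine Finset.sum_congr rfl fun i _ => ?_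
      rw [hBv k l i g hl i.2, hBv k l i h hl i.2]
    have h2 : ∑ j ∈ range (N k), A k j g * A k j h =
        ∑ j : Fin (N k), chi (s k j) (bits (20 * k + 100) g) *
          chi (s k j) (bits (20 * k + 100) h) := by
      rw [Finset.sum_range]
      refine Finset.sum_congr rfl fun j _ => ?_
      rw [hAv k j g j.2, hAv k j h j.2]
      have := j11423_sg_sq (ep k j)
      calc sg (ep k ⟨j, j.2⟩) * chi (s k ⟨j, j.2⟩) (bits (20 * k + 100) g) *
            (sg (ep k ⟨j, j.2⟩) * chi (s k ⟨j, j.2⟩) (bits (20 * k + 100) h))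
          = (sg (ep k j) * sg (ep k j)) * (chi (s k j) (bits (20 * k + 100) g) *
          chi (s k j) (bits (20 * k + 100) h)) := by ring
        _ = _ := by rw [this, one_mul]
    rw [h1, h2]
    by_cases hgh : g = h
    · subst hgh
      rw [Finset.sum_congr rfl fun i _ => j11423_chi_sq _ _,
        Finset.sum_congr rfl fun i _ => j11423_chi_sq _ _]
      simp only [Finset.sum_const, Finset.card_univ, Fintype.card_fin, nsmul_eq_mul, mul_one]
      rw [div_self (hNp _).ne', div_self (hNp _).ne', sub_self, abs_zero]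
      positivity
    · have hx := j11423_xor g h hg hh hgh
      rw [Finset.sum_congr rfl fun i _ => chi_mul _ _ _,
        Finset.sum_congr rfl fun i _ => chi_mul _ _ _]
      have h3 := j11423_avg _ _ (hN (k + 1)) k (ht1 k _ hx (⟨l.1, hl⟩, l.2))
      have h4 := j11423_avg _ _ (hN k) k (hs1 k _ hx)
      refine (abs_sub _ _).trans ?_
      linarith
  · intro k l g h hl hg hh
    have h1 : ∑ i ∈ range (N (k + 1)), B k l i g * A (k + 1) i h =
        ∑ i : Fin (N (k + 1)), sg (ep (k + 1) i) *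
          (chi (s (k + 1) i) (bits (20 * (k + 1) + 100) h) *
            chi (t k (⟨l.1, hl⟩, l.2) i) (bits (20 * k + 100) g)) := by
      rw [Finset.sum_range]
      refine Finset.sum_congr rfl fun i _ => ?_
      rw [hBv k l i g hl i.2, hAv (k + 1) i h i.2]
      ring
    rw [h1]
    refine (j11423_avg _ _ (hN (k + 1)) k (hep k _ _ _)).trans ?_
    have : (0 : ℝ) < (1 / 2 : ℝ) ^ k := by positivity
    linarith
  · intro k
    positivity
  · exact (summable_geometric_of_lt_one (by norm_num) (by norm_num)).mul_left 2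


end Pool.Agent.Helper983.SL

namespace Pool.Agent.Helper983.GC

open Finset

theorem exists_design : Nonempty Dsg := by
  obtain ⟨D, hM, hδ⟩ := SL.exists_design'
  have hM' : ∀ k, D.M k = Mm k := hM
  have hδ' : ∀ k, D.δ k = dl k := hδ
  have hl : ∀ k, ((0, true) : SL.C).1 < D.N k := fun k => D.Npos k
  refine ⟨⟨D.N, D.A, fun k i g => D.B k (0, true) i g, D.Npos, D.A1, fun k i g => D.B1 _ _ _ _,
    D.A0, fun k i g h => D.B0 _ _ _ _ (Or.inr h), ?_, ?_, ?_, ?_, ?_⟩⟩
  · intro k j j' hj hj'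
    rw [← hM']
    exact D.AA k j j' hj hj'
  · intro k j i
    rw [← hM']
    exact D.AB k j _ i
  · intro k i i' hi hi'
    rw [← hM', D.BB k _ _ i i' (hl k) (hl k) hi hi']
    simp
  · intro k g h hg hh
    rw [← hM'] at hg hh
    rw [← hδ']
    exact D.S1 k _ g h (hl k) hg hh
  · intro k g h hg hh
    rw [← hM'] at hg hh
    rw [← hδ']
    exact D.S2 k _ g h (hl k) hg hh

end Pool.Agent.Helper983.GC
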