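import Pool.Agent.Helper983.GC.P_no_retract
import Pool.Agent.Helper983.GC.P_Z_separable
import Pool.Agent.Helper983.GC.P_design

set_option autoImplicit false

namespace Pool.Agent.Helper983.GC

open Finset MeasureTheory

/-- There is a separable Banach space no generating compact convex subset of which is a Lipschitz
retract. -/
theorem final :
    ¬ (∀ (X : Type) [NormedAddCommGroup X] [NormedSpace ℝ X] [CompleteSpace X]
      [TopologicalSpace.SeparableSpace X],
      ∃ K : Set X, IsCompact K ∧ Convex ℝ K ∧ (0 : X) ∈ K ∧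
        Dense ((Submodule.span ℝ K : Submodule ℝ X) : Set X) ∧
        ∃ r : X → X, (∃ C : NNReal, LipschitzWith C r) ∧
          (∀ x, r x ∈ K) ∧ (∀ x ∈ K, r x = x)) := by
  intro H
  obtain ⟨D⟩ := exists_design
  have := Z_separable D
  obtain ⟨K, hK, hc, h0, hd, r, ⟨C, hC⟩, hr, hfix⟩ := H (Zs D)
  exact no_retract D K hK hc h0 hd r C C.2
    (fun x y => by simpa [dist_eq_norm] using hC.dist_le_mul x y) hr hfix

end Pool.Agent.Helper983.GC
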