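import Pool.Agent.Helper983.GC.Defs

set_option autoImplicit false

namespace Pool.Agent.Helper983.GC

open Finset MeasureTheory

variable (D : Dsg)



theorem nf_ftc {F f : ℝ → ℝ} (h : ∀ t, HasDerivAt F (f t) t) (hc : Continuous f) :
    ∫ t in (-1 : ℝ)..1, f t = F 1 - F (-1) :=
  intervalIntegral.integral_eq_sub_of_hasDerivAt (fun t _ => h t) (hc.intervalIntegrable _ _)

theorem nf_nn (t : ℝ) : 0 ≤ 15 / 16 * (1 - t ^ 2) ^ 2 := by positivity

theorem nf_mass : ∫ t in (-1 : ℝ)..1, (15 / 16 * (1 - t ^ 2) ^ 2 : ℝ) = 1 := by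
  have h := nf_ftc (F := fun t => 15 / 16 * t - 15 / 24 * t ^ 3 + 3 / 16 * t ^ 5)
    (f := fun t => 15 / 16 * (1 - t ^ 2) ^ 2) (by
      intro t
      have h1 := (((hasDerivAt_id t).const_mul (15 / 16)).sub
        ((hasDerivAt_pow 3 t).const_mul (15 / 24))).add ((hasDerivAt_pow 5 t).const_mul (3 / 16))
      refine h1.congr_deriv ?_
      norm_num
      ring) (by fun_prop)
  rw [h]
  norm_num

instance nu_prob : IsProbabilityMeasure nu := by
  constructor
  unfold nu
  rw [withDensity_apply _ MeasurableSet.univ, Measure.restrict_univ,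
    ← ofReal_integral_eq_lintegral_ofReal]
  · rw [integral_Icc_eq_integral_Ioc, ← intervalIntegral.integral_of_le (by norm_num), nf_mass,
      ENNReal.ofReal_one]
  · have hc : Continuous (fun t : ℝ => 15 / 16 * (1 - t ^ 2) ^ 2) := by fun_prop
    exact hc.continuousOn.integrableOn_compact isCompact_Icc
  · exact Filter.Eventually.of_forall nf_nn

theorem nu_bdd : ∀ᵐ t ∂nu, |t| ≤ 1 := by
  unfold nu
  apply (withDensity_absolutelyContinuous _ _).ae_le
  filter_upwards [ae_restrict_mem measurableSet_Icc] with t ht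
  exact abs_le.2 ht

theorem nf_meas : Measurable (fun t : ℝ => ENNReal.ofReal (15 / 16 * (1 - t ^ 2) ^ 2)) := by
  fun_prop

theorem nu_int {E : Type*} [NormedAddCommGroup E] [NormedSpace ℝ E] (f : ℝ → E) :
    ∫ t, f t ∂nu = ∫ t in (-1 : ℝ)..1, (15 / 16 * (1 - t ^ 2) ^ 2) • f t := by
  unfold nu
  rw [integral_withDensity_eq_integral_toReal_smul nf_meas
    (Filter.Eventually.of_forall fun t => ENNReal.ofReal_lt_top), integral_Icc_eq_integral_Ioc,
    ← intervalIntegral.integral_of_le (by norm_num)]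
  simp only [ENNReal.toReal_ofReal (nf_nn _)]

theorem nf_psi_meas : Measurable psi := by
  unfold psi
  fun_prop

theorem nf_sq (t : ℝ) (h : 1 - t ^ 2 ≠ 0) : psi t ^ 2 * (15 / 16 * (1 - t ^ 2) ^ 2) = 15 * t ^ 2 := by
  unfold psi
  field_simp
  ring

theorem psi_memLp : MemLp psi 2 nu := by
  rw [memLp_two_iff_integrable_sq nf_psi_meas.aestronglyMeasurable]
  unfold nu
  rw [integrable_withDensity_iff nf_meas
    (Filter.Eventually.of_forall fun t => ENNReal.ofReal_lt_top)]
  simp only [ENNReal.toReal_ofReal (nf_nn _)]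
  have hfin : IsFiniteMeasure (volume.restrict (Set.Icc (-1 : ℝ) 1)) := by
    constructor
    rw [Measure.restrict_apply_univ]
    exact measure_Icc_lt_top
  apply Integrable.mono' (integrable_const (15 : ℝ))
  · apply Measurable.aestronglyMeasurable
    exact (nf_psi_meas.pow_const 2).mul (by fun_prop)
  · filter_upwards [ae_restrict_mem measurableSet_Icc] with t ht
    by_cases h : 1 - t ^ 2 = 0
    · rw [h]
      norm_num
    · rw [nf_sq t h, Real.norm_eq_abs, abs_of_nonneg (by positivity)]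
      have : t ^ 2 ≤ 1 := by
        have h1 := ht.1
        have h2 := ht.2
        nlinarith
      linarith

theorem nf_mul (t : ℝ) : 15 / 16 * (1 - t ^ 2) ^ 2 * psi t = 15 / 4 * (t - t ^ 3) := by
  by_cases h : 1 - t ^ 2 = 0
  · have h3 : t - t ^ 3 = t * (1 - t ^ 2) := by ring
    rw [h3, h]
    ring
  · unfold psi
    field_simp
    ring

theorem nu_psi : ∫ t, psi t ∂nu = 0 := by
  rw [nu_int]
  simp only [smul_eq_mul, nf_mul]
  rw [nf_ftc (F := fun t => 15 / 8 * t ^ 2 - 15 / 16 * t ^ 4) (f := fun t => 15 / 4 * (t - t ^ 3)) (by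
      intro t
      have h1 := ((hasDerivAt_pow 2 t).const_mul (15 / 8)).sub
        ((hasDerivAt_pow 4 t).const_mul (15 / 16))
      refine h1.congr_deriv ?_
      norm_num
      ring) (by fun_prop)]
  norm_num

theorem nu_psi_mul : ∫ t, psi t * t ∂nu = 1 := by
  rw [nu_int]
  have h2 : ∀ t : ℝ, (15 / 16 * (1 - t ^ 2) ^ 2) • (psi t * t) = 15 / 4 * (t ^ 2 - t ^ 4) := by
    intro t
    rw [smul_eq_mul, ← mul_assoc, nf_mul]
    ring
  simp only [h2]
  rw [nf_ftc (F := fun t => 5 / 4 * t ^ 3 - 3 / 4 * t ^ 5) (f := fun t => 15 / 4 * (t ^ 2 - t ^ 4)) (by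
      intro t
      have h1 := ((hasDerivAt_pow 3 t).const_mul (5 / 4)).sub
        ((hasDerivAt_pow 5 t).const_mul (3 / 4))
      refine h1.congr_deriv ?_
      norm_num
      ring) (by fun_prop)]
  norm_num

theorem nu_psi_sq : ∫ t, psi t ^ 2 ∂nu = 10 := by
  rw [nu_int]
  have h2 : ∫ t in (-1 : ℝ)..1, (15 / 16 * (1 - t ^ 2) ^ 2) • psi t ^ 2 =
      ∫ t in (-1 : ℝ)..1, 15 * t ^ 2 := by
    apply intervalIntegral.integral_congr_ae
    have a1 : ({1} : Set ℝ)ᶜ ∈ ae (volume : Measure ℝ) := compl_mem_ae_iff.2 (measure_singleton 1)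
    have a2 : ({-1} : Set ℝ)ᶜ ∈ ae (volume : Measure ℝ) := compl_mem_ae_iff.2 (measure_singleton (-1))
    filter_upwards [a1, a2] with t ht1 ht2 _
    have ht1' : t ≠ 1 := ht1
    have ht2' : t ≠ -1 := ht2
    have h3 : 1 - t ^ 2 ≠ 0 := by
      intro h
      have h4 : (t - 1) * (t + 1) = 0 := by linear_combination -h
      rcases mul_eq_zero.1 h4 with h5 | h5
      · exact ht1' (by linarith)
      · exact ht2' (by linarith)
    rw [smul_eq_mul, mul_comm, nf_sq t h3]
  rw [h2, nf_ftc (F := fun t => 5 * t ^ 3) (f := fun t => 15 * t ^ 2) (by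
      intro t
      have h1 := (hasDerivAt_pow 3 t).const_mul 5
      refine h1.congr_deriv ?_
      norm_num
      ring) (by fun_prop)]
  norm_num

theorem nu_id : ∫ t, t ∂nu = 0 := by
  rw [nu_int]
  have h2 : ∀ t : ℝ, (15 / 16 * (1 - t ^ 2) ^ 2) • t = 15 / 16 * (t - 2 * t ^ 3 + t ^ 5) := by
    intro t
    rw [smul_eq_mul]
    ring
  simp only [h2]
  rw [nf_ftc (F := fun t => 15 / 32 * t ^ 2 - 15 / 32 * t ^ 4 + 15 / 96 * t ^ 6)
    (f := fun t => 15 / 16 * (t - 2 * t ^ 3 + t ^ 5)) (by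
      intro t
      have h1 := (((hasDerivAt_pow 2 t).const_mul (15 / 32)).sub
        ((hasDerivAt_pow 4 t).const_mul (15 / 32))).add ((hasDerivAt_pow 6 t).const_mul (15 / 96))
      refine h1.congr_deriv ?_
      norm_num
      ring) (by fun_prop)]
  norm_num

end Pool.Agent.Helper983.GC
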