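import Pool.Agent.Helper983.GC.Defs
import Pool.Agent.Helper983.GC.P_nu_facts

set_option autoImplicit false

namespace Pool.Agent.Helper983.GC

open Finset MeasureTheory

variable (D : Dsg)



instance P_prob (ι : Type) [Fintype ι] : IsProbabilityMeasure (P ι) := by
  unfold P
  infer_instance

theorem P_eval (ι : Type) [Fintype ι] (p : ι) :
    MeasurePreserving (fun u : ι → ℝ => u p) (P ι) nu := by
  classical
  exact measurePreserving_eval (fun _ : ι => nu) p

theorem P_int_one (ι : Type) [Fintype ι] (p : ι) (g : ℝ → ℝ) :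
    ∫ u : ι → ℝ, g (u p) ∂P ι = ∫ t, g t ∂nu := by
  classical
  have h := integral_fintype_prod_eq_prod (ι := ι) (μ := fun _ => nu)
    (fun i => if i = p then g else fun _ => (1 : ℝ))
  have h1 : ∀ u : ι → ℝ, ∏ i, (if i = p then g else fun _ => (1 : ℝ)) (u i) = g (u p) := by
    intro u
    rw [Finset.prod_eq_single p]
    · simp
    · intro b _ hb; simp [hb]
    · intro hp; exact absurd (Finset.mem_univ p) hp
  have h2 : ∏ i, ∫ x, (if i = p then g else fun _ => (1 : ℝ)) x ∂nu = ∫ t, g t ∂nu := by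
    rw [Finset.prod_eq_single p]
    · simp
    · intro b _ hb; simp [hb]
    · intro hp; exact absurd (Finset.mem_univ p) hp
  rw [h2] at h
  rw [← h]
  unfold P
  refine integral_congr_ae (Filter.Eventually.of_forall fun u => (h1 u).symm)

theorem P_int_two (ι : Type) [Fintype ι] (p q : ι) (hpq : p ≠ q) (g k : ℝ → ℝ) :
    ∫ u : ι → ℝ, g (u p) * k (u q) ∂P ι = (∫ t, g t ∂nu) * ∫ t, k t ∂nu := by
  classical
  have h := integral_fintype_prod_eq_prod (ι := ι) (μ := fun _ => nu)
    (fun i => if i = p then g else if i = q then k else fun _ => (1 : ℝ))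
  have h1 : ∀ u : ι → ℝ, ∏ i, (if i = p then g else if i = q then k else fun _ => (1 : ℝ)) (u i)
      = g (u p) * k (u q) := by
    intro u
    rw [Finset.prod_eq_mul p q hpq]
    · simp [hpq.symm]
    · intro b _ hb; simp [hb.1, hb.2]
    · intro hp; exact absurd (Finset.mem_univ p) hp
    · intro hp; exact absurd (Finset.mem_univ q) hp
  have h2 : ∏ i, ∫ x, (if i = p then g else if i = q then k else fun _ => (1 : ℝ)) x ∂nu
      = (∫ t, g t ∂nu) * ∫ t, k t ∂nu := by
    rw [Finset.prod_eq_mul p q hpq]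
    · simp [hpq.symm]
    · intro b _ hb; simp [hb.1, hb.2]
    · intro hp; exact absurd (Finset.mem_univ p) hp
    · intro hp; exact absurd (Finset.mem_univ q) hp
  rw [h2] at h
  rw [← h]
  unfold P
  refine integral_congr_ae (Filter.Eventually.of_forall fun u => (h1 u).symm)

theorem P_bdd (ι : Type) [Fintype ι] : ∀ᵐ u ∂P ι, ∀ p, |u p| ≤ 1 := by
  rw [ae_all_iff]
  intro p
  exact (P_eval ι p).quasiMeasurePreserving.ae nu_bdd
theorem P_memLp (ι : Type) [Fintype ι] (p : ι) : MemLp (fun u : ι → ℝ => psi (u p)) 2 (P ι) :=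
  psi_memLp.comp_measurePreserving (P_eval ι p)
theorem P_psi (ι : Type) [Fintype ι] (p : ι) : ∫ u : ι → ℝ, psi (u p) ∂P ι = 0 := by
  rw [P_int_one ι p psi, nu_psi]
theorem P_psi_mul (ι : Type) [Fintype ι] [DecidableEq ι] (p q : ι) :
    ∫ u : ι → ℝ, psi (u p) * u q ∂P ι = if p = q then 1 else 0 := by
  split_ifs with h
  · subst h
    rw [P_int_one ι p (fun t => psi t * t), nu_psi_mul]
  · have := P_int_two ι p q h psi (fun t => t)
    rw [this, nu_psi, zero_mul]
theorem P_psi_psi (ι : Type) [Fintype ι] [DecidableEq ι] (p q : ι) :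
    ∫ u : ι → ℝ, psi (u p) * psi (u q) ∂P ι = if p = q then 10 else 0 := by
  split_ifs with h
  · subst h
    rw [P_int_one ι p (fun t => psi t * psi t)]
    have : (fun t => psi t * psi t) = fun t => psi t ^ 2 := by ext t; ring
    rw [this, nu_psi_sq]
  · rw [P_int_two ι p q h psi psi, nu_psi, zero_mul]

end Pool.Agent.Helper983.GC
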