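import Pool.Agent.Helper983.GC.Defs

set_option autoImplicit false

namespace Pool.Agent.Helper983.GC

open Finset MeasureTheory

variable (D : Dsg)



theorem abs_apply_le (x : L) (w : Om) : |x w| ≤ ‖x‖ := by
  have := lp.norm_apply_le_norm (p := (40 : ENNReal)) (by norm_num) x w
  simpa [Real.norm_eq_abs] using this

theorem lp_facts_toReal : (40 : ENNReal).toReal = ((40 : ℕ) : ℝ) := by norm_num

theorem hasSum_norm_pow (x : L) : HasSum (fun w => |x w| ^ 40) (‖x‖ ^ 40) := by
  have h := lp.hasSum_norm (p := (40 : ENNReal)) (by norm_num) x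
  rw [lp_facts_toReal] at h
  simp only [Real.rpow_natCast, Real.norm_eq_abs] at h
  exact h

theorem norm_pow_fin (x : L) (S : Finset Om) (h : ∀ w, w ∉ S → x w = 0) :
    ‖x‖ ^ 40 = ∑ w ∈ S, |x w| ^ 40 := by
  have h1 : HasSum (fun w => |x w| ^ 40) (∑ w ∈ S, |x w| ^ 40) := by
    apply hasSum_sum_of_ne_finset_zero
    intro w hw
    rw [h w hw]
    norm_num
  exact (hasSum_norm_pow x).unique h1

theorem sum_le_norm_pow (x : L) (S : Finset Om) : ∑ w ∈ S, |x w| ^ 40 ≤ ‖x‖ ^ 40 :=
  sum_le_hasSum S (fun w _ => by positivity) (hasSum_norm_pow x)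

end Pool.Agent.Helper983.GC
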