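import Pool.Agent.Helper983.GC.Defs
import Pool.Agent.Helper983.GC.P_lp_facts

set_option autoImplicit false

namespace Pool.Agent.Helper983.GC

open Finset MeasureTheory

variable (D : Dsg)



theorem Mm_pos_aux (k : ℕ) : (0 : ℝ) < (Mm k : ℝ) := by
  have : 0 < Mm k := by
    unfold Mm
    exact Nat.pow_pos (by norm_num)
  exact_mod_cast this

theorem al_add (k j : ℕ) (x y : L) : al D k j (x + y) = al D k j x + al D k j y := by
  have hs : ∑ g ∈ range (Mm k), D.A k j g * (x + y : L) (k, g) =
      (∑ g ∈ range (Mm k), D.A k j g * x (k, g)) + ∑ g ∈ range (Mm k), D.A k j g * y (k, g) := by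
    rw [← Finset.sum_add_distrib]
    refine Finset.sum_congr rfl fun g _ => ?_
    have h : (x + y : L) (k, g) = x (k, g) + y (k, g) := by
      rw [lp.coeFn_add, Pi.add_apply]
    rw [h, mul_add]
  unfold al
  rw [hs, add_div]
theorem al_smul (k j : ℕ) (c : ℝ) (x : L) : al D k j (c • x) = c * al D k j x := by
  have hs : ∑ g ∈ range (Mm k), D.A k j g * (c • x : L) (k, g) =
      c * ∑ g ∈ range (Mm k), D.A k j g * x (k, g) := by
    rw [Finset.mul_sum]
    refine Finset.sum_congr rfl fun g _ => ?_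
    have h : (c • x : L) (k, g) = c * x (k, g) := by
      rw [lp.coeFn_smul, Pi.smul_apply, smul_eq_mul]
    rw [h]
    ring
  unfold al
  rw [hs, mul_div_assoc]
theorem al_abs_le (k j : ℕ) (x : L) : |al D k j x| ≤ ‖x‖ := by
  have hM := Mm_pos_aux k
  unfold al
  rw [abs_div, abs_of_pos hM, div_le_iff₀ hM]
  refine (Finset.abs_sum_le_sum_abs _ _).trans ?_
  have h1 : ∀ g ∈ range (Mm k), |D.A k j g * x (k, g)| ≤ ‖x‖ := by
    intro g _
    rw [abs_mul]
    calc |D.A k j g| * |x (k, g)| ≤ 1 * ‖x‖ :=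
          mul_le_mul (D.A1 k j g) (abs_apply_le x (k, g)) (abs_nonneg _) zero_le_one
      _ = ‖x‖ := one_mul _
  refine (Finset.sum_le_sum h1).trans ?_
  rw [Finset.sum_const, Finset.card_range, nsmul_eq_mul, mul_comm]
theorem al_e (k j : ℕ) (hj : j < D.N k) : al D k j (e D k j) = 1 := by
  have hM := Mm_pos_aux k
  unfold al
  have h1 : ∑ g ∈ range (Mm k), D.A k j g * e D k j (k, g) =
      ∑ g ∈ range (Mm k), D.A k j g * D.A k j g := by
    apply Finset.sum_congr rfl
    intro g hg
    have hg' : g < Mm k := Finset.mem_range.1 hg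
    have h2 : e D k j (k, g) = D.A k j g := by
      rw [e_apply]
      unfold eF
      have h3 : ¬ (k + 1 = k) := by omega
      simp only [hg', if_true, h3, if_false, add_zero]
    rw [h2]
  rw [h1, D.AA k j j hj hj, if_pos rfl, div_self hM.ne']

end Pool.Agent.Helper983.GC
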