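import Pool.Agent.Helper983.GC.Defs
import Pool.Agent.Helper983.GC.P_al_facts

set_option autoImplicit false

namespace Pool.Agent.Helper983.GC

open Finset MeasureTheory

variable (D : Dsg)



theorem alchild_basis (k i : ℕ) (hi : i < D.N (k + 1)) (k2 j : ℕ) :
    al D (k + 1) i (e D k2 j) =
      (∑ g ∈ range (Mm k), D.B k i g * (e D k2 j) (k, g)) / Mm k := by
  have hM : ∀ k, (Mm k : ℝ) ≠ 0 := by
    intro k
    unfold Mm
    positivity
  unfold al
  have hL : ∀ g ∈ range (Mm (k + 1)), D.A (k + 1) i g * (e D k2 j) (k + 1, g) =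
      D.A (k + 1) i g * ((if k + 1 = k2 then D.A k2 j g else 0) +
        (if k + 1 + 1 = k2 then D.B (k + 1) j g else 0)) := by
    intro g hg
    rw [e_apply]
    unfold eF
    rw [if_pos (Finset.mem_range.1 hg)]
  have hR : ∀ g ∈ range (Mm k), D.B k i g * (e D k2 j) (k, g) =
      D.B k i g * ((if k = k2 then D.A k2 j g else 0) +
        (if k + 1 = k2 then D.B k j g else 0)) := by
    intro g hg
    rw [e_apply]
    unfold eF
    rw [if_pos (Finset.mem_range.1 hg)]
  rw [Finset.sum_congr rfl hL, Finset.sum_congr rfl hR]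
  by_cases h1 : k + 1 = k2
  · subst h1
    have e1 : ¬ (k + 1 + 1 = k + 1) := by omega
    have e2 : ¬ (k = k + 1) := by omega
    simp only [if_true, e1, if_false, add_zero, e2, zero_add]
    by_cases hj : j < D.N (k + 1)
    · rw [D.AA (k + 1) i j hi hj, D.BB k i j hi hj]
      by_cases hij : i = j
      · rw [if_pos hij, if_pos hij, div_self (hM _), div_self (hM _)]
      · rw [if_neg hij, if_neg hij, zero_div, zero_div]
    · have hj' : D.N (k + 1) ≤ j := not_lt.1 hj
      simp only [D.A0 (k + 1) j _ hj', D.B0 k j _ hj', mul_zero, Finset.sum_const_zero, zero_div]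
  · by_cases h2 : k + 1 + 1 = k2
    · subst h2
      have e2 : ¬ (k = k + 1 + 1) := by omega
      have e3 : ¬ (k + 1 = k + 1 + 1) := by omega
      simp only [if_true, e2, e3, if_false, add_zero, zero_add, mul_zero, Finset.sum_const_zero,
        zero_div]
      rw [D.AB (k + 1) i j, zero_div]
    · by_cases h3 : k = k2
      · subst h3
        simp only [if_true, h1, h2, if_false, add_zero, mul_zero, Finset.sum_const_zero,
          zero_div]
        have : ∑ g ∈ range (Mm k), D.B k i g * D.A k j g = 0 := by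
          rw [← D.AB k j i]
          exact Finset.sum_congr rfl (fun g _ => mul_comm _ _)
        rw [this, zero_div]
      · simp only [h1, h2, h3, if_false, add_zero, mul_zero, Finset.sum_const_zero, zero_div]

theorem alchild_cont (w : Om) : Continuous (fun z : L => z w) :=
  (continuous_apply w).comp (lp.uniformContinuous_coe (p := 40)).continuous

theorem alchild_cont' (n k : ℕ) (c : ℕ → ℝ) (d : ℝ) :
    Continuous (fun z : L => (∑ g ∈ range n, c g * z (k, g)) / d) :=
  (continuous_finsetSum _ (fun g _ => continuous_const.mul (alchild_cont (k, g)))).div_const _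

theorem alchild_zero' (n k : ℕ) (c : ℕ → ℝ) (d : ℝ) :
    (∑ g ∈ range n, c g * (0 : L) (k, g)) / d = 0 := by
  have : ∑ g ∈ range n, c g * (0 : L) (k, g) = 0 := by
    apply Finset.sum_eq_zero
    intro g _
    rw [lp.coeFn_zero, Pi.zero_apply, mul_zero]
  rw [this, zero_div]

theorem alchild_add' (n k : ℕ) (c : ℕ → ℝ) (d : ℝ) (x y : L) :
    (∑ g ∈ range n, c g * (x + y) (k, g)) / d =
      (∑ g ∈ range n, c g * x (k, g)) / d + (∑ g ∈ range n, c g * y (k, g)) / d := by
  rw [← add_div, ← Finset.sum_add_distrib]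
  congr 1
  apply Finset.sum_congr rfl
  intro g _
  rw [lp.coeFn_add, Pi.add_apply, mul_add]

theorem alchild_smul' (n k : ℕ) (c : ℕ → ℝ) (d a : ℝ) (x : L) :
    (∑ g ∈ range n, c g * (a • x) (k, g)) / d = a * ((∑ g ∈ range n, c g * x (k, g)) / d) := by
  rw [← mul_div_assoc, Finset.mul_sum]
  congr 1
  apply Finset.sum_congr rfl
  intro g _
  rw [lp.coeFn_smul, Pi.smul_apply, smul_eq_mul]
  ring

theorem alchild_gen (φ : L → ℝ) (n k : ℕ) (c : ℕ → ℝ) (d : ℝ) (hφc : Continuous φ)
    (hadd : ∀ x y, φ (x + y) = φ x + φ y) (hsmul : ∀ (a : ℝ) x, φ (a • x) = a * φ x)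
    (hb : ∀ k2 j, φ (e D k2 j) = (∑ g ∈ range n, c g * (e D k2 j) (k, g)) / d)
    (z : L) (hz : z ∈ Zs D) : φ z = (∑ g ∈ range n, c g * z (k, g)) / d := by
  have hclosed : IsClosed {z : L | φ z = (∑ g ∈ range n, c g * z (k, g)) / d} :=
    isClosed_eq hφc (alchild_cont' n k c d)
  have hsub : ((Submodule.span ℝ (Set.range (fun p : ℕ × ℕ => e D p.1 p.2)) : Submodule ℝ L) : Set L)
      ⊆ {z : L | φ z = (∑ g ∈ range n, c g * z (k, g)) / d} := by
    intro x hx
    refine Submodule.span_induction (p := fun x _ => φ x =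
      (∑ g ∈ range n, c g * x (k, g)) / d) ?_ ?_ ?_ ?_ hx
    · rintro _ ⟨p, rfl⟩
      exact hb p.1 p.2
    · have h0 : φ (0 : L) = 0 := by
        have := hsmul 0 0
        rwa [zero_smul, zero_mul] at this
      rw [h0, alchild_zero']
    · intro x y _ _ hx hy
      rw [hadd, hx, hy, alchild_add']
    · intro a x _ hx
      rw [hsmul, hx, alchild_smul']
  have hz' : z ∈ closure ((Submodule.span ℝ (Set.range (fun p : ℕ × ℕ => e D p.1 p.2)) :
      Submodule ℝ L) : Set L) := by
    rw [← Submodule.topologicalClosure_coe]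
    exact hz
  have hfin := closure_minimal hsub hclosed hz'
  exact hfin

theorem al_child (k i : ℕ) (hi : i < D.N (k + 1)) (z : L) (hz : z ∈ Zs D) :
    al D (k + 1) i z = (∑ g ∈ range (Mm k), D.B k i g * z (k, g)) / Mm k :=
  alchild_gen D (al D (k + 1) i) (Mm k) k (D.B k i) (Mm k)
    (alchild_cont' (Mm (k + 1)) (k + 1) (D.A (k + 1) i) (Mm (k + 1)))
    (al_add D (k + 1) i) (al_smul D (k + 1) i) (fun k2 j => alchild_basis D k i hi k2 j) z hz

end Pool.Agent.Helper983.GC
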