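import Pool.Agent.Helper983.GC.Defs
import Pool.Agent.Helper983.GC.P_lp_facts

set_option autoImplicit false

namespace Pool.Agent.Helper983.GC

open Finset MeasureTheory

variable (D : Dsg)



theorem phi_norm_apply (k g : ℕ) (w : Om) :
    ((∑ i ∈ range (D.N (k + 1)), (D.B k i g / D.N (k + 1)) • e D (k + 1) i) -
      ∑ j ∈ range (D.N k), (D.A k j g / D.N k) • e D k j : L) w
    = (∑ i ∈ range (D.N (k + 1)), (D.B k i g / D.N (k + 1)) * eF D (k + 1) i w) -
      ∑ j ∈ range (D.N k), (D.A k j g / D.N k) * eF D k j w := by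
  rw [lp.coeFn_sub, Pi.sub_apply, lp.coeFn_sum, lp.coeFn_sum, Finset.sum_apply, Finset.sum_apply]
  refine congrArg₂ (fun a b : ℝ => a - b) ?_ ?_
  · refine Finset.sum_congr rfl (fun i _ => ?_)
    rw [lp.coeFn_smul, Pi.smul_apply, e_apply, smul_eq_mul]
  · refine Finset.sum_congr rfl (fun i _ => ?_)
    rw [lp.coeFn_smul, Pi.smul_apply, e_apply, smul_eq_mul]

theorem phi_norm_pt (k g : ℕ) (hg : g < Mm k) (w : Om) :
    |(∑ i ∈ range (D.N (k + 1)), (D.B k i g / D.N (k + 1)) * eF D (k + 1) i w) -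
      ∑ j ∈ range (D.N k), (D.A k j g / D.N k) * eF D k j w| ≤
    if w.1 + 1 = k ∨ w.1 = k ∨ w.1 = k + 1 then 4 * (1 / 2 : ℝ) ^ k else 0 := by
  obtain ⟨a, h⟩ := w
  have hpos : 0 ≤ (1 / 2 : ℝ) ^ k := by positivity
  by_cases hh : h < Mm a
  · have e1 : ∀ k i, eF D k i (a, h) = (if a = k then D.A k i h else 0) + (if a + 1 = k then D.B a i h else 0) := by
      intro k i
      unfold eF
      rw [if_pos hh]
    simp only [e1]
    by_cases h1 : a = k
    · subst h1
      have n1 : ¬ (a = a + 1) := by omega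
      have n2 : ¬ (a + 1 = a) := by omega
      simp only [if_neg n1, if_neg n2, if_true, zero_add, add_zero, or_true, true_or]
      have := D.S1 a g h hg hh
      have e2 : (∑ i ∈ range (D.N (a + 1)), D.B a i g / D.N (a + 1) * D.B a i h) -
          ∑ j ∈ range (D.N a), D.A a j g / D.N a * D.A a j h
          = (∑ i ∈ range (D.N (a + 1)), D.B a i g * D.B a i h) / D.N (a + 1) -
      (∑ j ∈ range (D.N a), D.A a j g * D.A a j h) / D.N a := by
        rw [Finset.sum_div, Finset.sum_div]
        congr 1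
        · refine Finset.sum_congr rfl (fun i _ => ?_); ring
        · refine Finset.sum_congr rfl (fun i _ => ?_); ring
      rw [e2]
      refine this.trans ?_
      unfold dl
      linarith
    · by_cases h2 : a = k + 1
      · subst h2
        have n1 : ¬ (k + 1 + 1 = k + 1) := by omega
        have n2 : ¬ (k + 1 = k) := by omega
        have n3 : ¬ (k + 1 + 1 = k) := by omega
        simp only [if_neg n1, if_neg n2, if_neg n3, if_true, add_zero, mul_zero, Finset.sum_const_zero,
          sub_zero, or_true]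
        have := D.S2 k g h hg hh
        have e2 : (∑ i ∈ range (D.N (k + 1)), D.B k i g / D.N (k + 1) * D.A (k + 1) i h)
            = (∑ i ∈ range (D.N (k + 1)), D.B k i g * D.A (k + 1) i h) / D.N (k + 1) := by
          rw [Finset.sum_div]
          refine Finset.sum_congr rfl (fun i _ => ?_); ring
        rw [e2]
        refine this.trans ?_
        unfold dl
        linarith
      · by_cases h3 : a + 1 = k
        · subst h3
          have n1 : ¬ (a = a + 1 + 1) := by omega
          have n2 : ¬ (a + 1 = a + 1 + 1) := by omega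
          have n3 : ¬ (a = a + 1) := by omega
          simp only [if_neg n1, if_neg n2, if_neg n3, if_true, add_zero, zero_add, mul_zero,
            Finset.sum_const_zero, zero_sub, true_or, abs_neg]
          have := D.S2 a h g hh hg
          have e2 : (∑ i ∈ range (D.N (a + 1)), D.A (a + 1) i g / D.N (a + 1) * D.B a i h)
              = (∑ i ∈ range (D.N (a + 1)), D.B a i h * D.A (a + 1) i g) / D.N (a + 1) := by
            rw [Finset.sum_div]
            refine Finset.sum_congr rfl (fun i _ => ?_); ring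
          rw [e2]
          refine this.trans ?_
          unfold dl
          rw [pow_succ]
          linarith [show (0:ℝ) ≤ (1/2)^a by positivity]
        · have n1 : ¬ (a + 1 = k + 1) := by omega
          have n2 : ¬ (a + 1 = k ∨ a = k ∨ a = k + 1) := by omega
          simp only [if_neg h1, if_neg h2, if_neg h3, if_neg n1, if_neg n2, add_zero, mul_zero,
            Finset.sum_const_zero, sub_zero, abs_zero]
          exact le_refl _
  · have e1 : ∀ k i, eF D k i (a, h) = 0 := by
      intro k i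
      unfold eF
      rw [if_neg hh]
    simp only [e1, mul_zero, Finset.sum_const_zero, sub_zero, abs_zero]
    split_ifs
    · linarith
    · exact le_refl _

theorem phi_norm (k g : ℕ) (hg : g < Mm k) :
    ‖(∑ i ∈ range (D.N (k + 1)), (D.B k i g / D.N (k + 1)) • e D (k + 1) i) -
      ∑ j ∈ range (D.N k), (D.A k j g / D.N k) • e D k j‖ ≤ 64 * (3 / 4 : ℝ) ^ k := by
  set x : L := (∑ i ∈ range (D.N (k + 1)), (D.B k i g / D.N (k + 1)) • e D (k + 1) i) -
      ∑ j ∈ range (D.N k), (D.A k j g / D.N k) • e D k j with hx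
  have hz : ∀ w, w ∉ blk (k + 1) → x w = 0 := by
    intro w hw
    rw [hx, phi_norm_apply]
    have hw' : w ∉ blk k := by
      intro h
      apply hw
      unfold blk at h ⊢
      rw [Finset.mem_product, Finset.mem_range, Finset.mem_range] at h ⊢
      exact ⟨by omega, h.2.trans_le (Mm_mono (by omega))⟩
    rw [Finset.sum_eq_zero, Finset.sum_eq_zero, sub_zero]
    · intro i _; rw [eF_zero_of D k i w hw', mul_zero]
    · intro i _; rw [eF_zero_of D (k + 1) i w hw, mul_zero]
  have hp : ∀ w : Om, |x w| ^ 40 ≤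
      if w.1 + 1 = k ∨ w.1 = k ∨ w.1 = k + 1 then (4 * (1 / 2 : ℝ) ^ k) ^ 40 else 0 := by
    intro w
    have h1 := phi_norm_pt D k g hg w
    rw [← phi_norm_apply, ← hx] at h1
    split_ifs with h
    · rw [if_pos h] at h1
      exact pow_le_pow_left₀ (abs_nonneg _) h1 40
    · rw [if_neg h] at h1
      have : |x w| = 0 := le_antisymm h1 (abs_nonneg _)
      rw [this]; norm_num
  have h40 : ‖x‖ ^ 40 ≤ (Mm (k + 1) : ℝ) * (3 * (4 * (1 / 2 : ℝ) ^ k) ^ 40) := by
    rw [norm_pow_fin x (blk (k + 1)) hz]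
    refine (Finset.sum_le_sum (fun w _ => hp w)).trans ?_
    unfold blk
    generalize Mm (k + 1) = M
    have hb : (0 : ℝ) ≤ (4 * (1 / 2 : ℝ) ^ k) ^ 40 := by positivity
    rw [Finset.sum_product]
    simp only [Finset.sum_const, Finset.card_range, nsmul_eq_mul]
    rw [← Finset.mul_sum]
    refine mul_le_mul_of_nonneg_left ?_ (Nat.cast_nonneg _)
    rw [← Finset.sum_filter, Finset.sum_const, nsmul_eq_mul]
    refine mul_le_mul_of_nonneg_right ?_ hb
    have hsub : (range (k + 1 + 1)).filter (fun a => a + 1 = k ∨ a = k ∨ a = k + 1) ⊆ {k - 1, k, k + 1} := by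
      intro a ha
      rw [Finset.mem_filter] at ha
      simp only [Finset.mem_insert, Finset.mem_singleton]
      omega
    have hc := (Finset.card_le_card hsub).trans Finset.card_le_three
    exact_mod_cast hc
  have hfin : (Mm (k + 1) : ℝ) * (3 * (4 * (1 / 2 : ℝ) ^ k) ^ 40) ≤ (64 * (3 / 4 : ℝ) ^ k) ^ 40 := by
    have e1 : (Mm (k + 1) : ℝ) = 2 ^ 120 * ((2 : ℝ) ^ 20) ^ k := by
      unfold Mm
      push_cast
      rw [← pow_mul, ← pow_add]
      congr 1
      ring
    have e2 : (4 * (1 / 2 : ℝ) ^ k) ^ 40 = 2 ^ 80 * (((1 / 2 : ℝ)) ^ 40) ^ k := by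
      rw [mul_pow, ← pow_mul, ← pow_mul, mul_comm k 40]
      norm_num
    have e3 : (64 * (3 / 4 : ℝ) ^ k) ^ 40 = 2 ^ 240 * (((3 / 4 : ℝ)) ^ 40) ^ k := by
      rw [mul_pow, ← pow_mul, ← pow_mul, mul_comm k 40]
      norm_num
    rw [e1, e2, e3]
    have e4 : (2 : ℝ) ^ 120 * (2 ^ 20) ^ k * (3 * (2 ^ 80 * ((1 / 2) ^ 40) ^ k))
        = (3 * 2 ^ 200) * ((2 ^ 20) * ((1 / 2 : ℝ) ^ 40)) ^ k := by
      rw [mul_pow]
      ring
    rw [e4]
    have e5 : ((2 : ℝ) ^ 20) * ((1 / 2 : ℝ) ^ 40) ≤ (3 / 4) ^ 40 := by norm_num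
    have e6 : (((2 : ℝ) ^ 20) * ((1 / 2 : ℝ) ^ 40)) ^ k ≤ ((3 / 4) ^ 40) ^ k :=
      pow_le_pow_left₀ (by positivity) e5 k
    refine mul_le_mul (by norm_num) e6 (by positivity) (by positivity)
  exact le_of_pow_le_pow_left₀ (by norm_num) (by positivity) (h40.trans hfin)

end Pool.Agent.Helper983.GC
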