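import Pool.Agent.Helper983.GC.Defs
import Pool.Agent.Helper983.GC.P_al_facts
import Pool.Agent.Helper983.GC.P_al_child
import Pool.Agent.Helper983.GC.P_phi_norm

set_option autoImplicit false

namespace Pool.Agent.Helper983.GC

open Finset MeasureTheory

variable (D : Dsg)



theorem sum_eval_bs (s : Finset ℕ) (c : ℕ → ℝ) (V : ℕ → L) (w : Om) :
    (∑ i ∈ s, c i • V i : L) w = ∑ i ∈ s, c i * (V i w) := by
  rw [lp.coeFn_sum, Finset.sum_apply]
  refine Finset.sum_congr rfl fun i _ => ?_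
  rw [lp.coeFn_smul, Pi.smul_apply, smul_eq_mul]

theorem bt_form_bs (n M : ℕ) (B : ℕ → ℕ → ℝ) (N : ℝ) (V : ℕ → L) (k : ℕ) :
    (∑ i ∈ range n, (∑ g ∈ range M, B i g * V i (k, g)) / (M : ℝ)) / N =
      (∑ g ∈ range M, (∑ i ∈ range n, (B i g / N) • V i : L) (k, g)) / (M : ℝ) := by
  have h1 : ∀ g ∈ range M, (∑ i ∈ range n, (B i g / N) • V i : L) (k, g) =
      (∑ i ∈ range n, B i g * V i (k, g)) / N := by
    intro g _
    rw [sum_eval_bs, Finset.sum_div]
    refine Finset.sum_congr rfl fun i _ => ?_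
    ring
  rw [Finset.sum_congr rfl h1, ← Finset.sum_div, ← Finset.sum_div, Finset.sum_comm, div_right_comm]

theorem bt_step (V : ℕ → ℕ → L) (k : ℕ) (hV : ∀ i, V (k + 1) i ∈ Zs D) (c : ℝ)
    (hc : ∀ g, g < Mm k →
      ‖(∑ i ∈ range (D.N (k + 1)), (D.B k i g / D.N (k + 1)) • V (k + 1) i) -
        ∑ j ∈ range (D.N k), (D.A k j g / D.N k) • V k j‖ ≤ c) :
    |bt D (k + 1) V - bt D k V| ≤ c := by
  have hM : (0 : ℝ) < (Mm k : ℝ) :=
    Nat.cast_pos.2 (Nat.pos_of_ne_zero (pow_ne_zero _ (by norm_num)))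
  have e1 : bt D (k + 1) V = (∑ g ∈ range (Mm k),
      (∑ i ∈ range (D.N (k + 1)), (D.B k i g / (D.N (k + 1) : ℝ)) • V (k + 1) i : L) (k, g)) /
        (Mm k : ℝ) := by
    have h0 : ∀ i ∈ range (D.N (k + 1)), al D (k + 1) i (V (k + 1) i) =
        (∑ g ∈ range (Mm k), D.B k i g * V (k + 1) i (k, g)) / (Mm k : ℝ) := fun i hi =>
      al_child D k i (Finset.mem_range.1 hi) _ (hV i)
    unfold bt
    rw [Finset.sum_congr rfl h0]
    exact bt_form_bs _ _ (D.B k) _ (V (k + 1)) k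
  have e2 : bt D k V = (∑ g ∈ range (Mm k),
      (∑ j ∈ range (D.N k), (D.A k j g / (D.N k : ℝ)) • V k j : L) (k, g)) /
        (Mm k : ℝ) := by
    have h0 : ∀ j ∈ range (D.N k), al D k j (V k j) =
        (∑ g ∈ range (Mm k), D.A k j g * V k j (k, g)) / (Mm k : ℝ) := fun j _ => by
      unfold al
      exact Eq.refl _
    unfold bt
    rw [Finset.sum_congr rfl h0]
    exact bt_form_bs _ _ (D.A k) _ (V k) k
  rw [e1, e2, ← sub_div, ← Finset.sum_sub_distrib, abs_div, abs_of_pos hM, div_le_iff₀ hM]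
  refine (Finset.abs_sum_le_sum_abs _ _).trans ?_
  have h3 : ∀ g ∈ range (Mm k), |(∑ i ∈ range (D.N (k + 1)),
        (D.B k i g / (D.N (k + 1) : ℝ)) • V (k + 1) i : L) (k, g) -
      (∑ j ∈ range (D.N k), (D.A k j g / (D.N k : ℝ)) • V k j : L) (k, g)| ≤ c := by
    intro g hg
    refine le_trans ?_ (hc g (Finset.mem_range.1 hg))
    have h4 := lp.norm_apply_le_norm (p := 40) (by norm_num)
      ((∑ i ∈ range (D.N (k + 1)), (D.B k i g / (D.N (k + 1) : ℝ)) • V (k + 1) i : L) -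
        (∑ j ∈ range (D.N k), (D.A k j g / (D.N k : ℝ)) • V k j : L)) (k, g)
    rw [lp.coeFn_sub, Pi.sub_apply, Real.norm_eq_abs] at h4
    exact h4
  refine (Finset.sum_le_sum h3).trans ?_
  rw [Finset.sum_const, Finset.card_range, nsmul_eq_mul, mul_comm]

end Pool.Agent.Helper983.GC
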