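import Pool.Agent.Helper983.GC.Defs
import Pool.Agent.Helper983.GC.P_lp_facts

set_option autoImplicit false

namespace Pool.Agent.Helper983.GC

open Finset MeasureTheory

variable (D : Dsg)



theorem eF_abs_le_one (k j : ℕ) (w : Om) : |eF D k j w| ≤ 1 := by
  unfold eF
  split_ifs with h1 h2 h3 h3
  · omega
  · simpa using D.A1 k j w.2
  · simpa using D.B1 w.1 j w.2
  · simp
  · simp

theorem Mm_pos' (k : ℕ) : 1 ≤ Mm k := Nat.one_le_two_pow

theorem e_norm (k j : ℕ) : ‖e D k j‖ ≤ 2 * Mm k := by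
  set S : Finset Om := ({k} ×ˢ range (Mm k)) ∪ ({k - 1} ×ˢ range (Mm k)) with hS
  have hout : ∀ w, w ∉ S → (e D k j) w = 0 := by
    intro w hw
    rw [e_apply]
    unfold eF
    split_ifs with h1 h2 h3 h3
    · omega
    · exfalso
      apply hw
      rw [hS, Finset.mem_union]
      left
      exact Finset.mem_product.2 ⟨Finset.mem_singleton.2 h2, Finset.mem_range.2 (h2 ▸ h1)⟩
    · exfalso
      apply hw
      rw [hS, Finset.mem_union]
      right
      exact Finset.mem_product.2 ⟨Finset.mem_singleton.2 (by omega),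
        Finset.mem_range.2 (h1.trans_le (Mm_mono (by omega)))⟩
    · simp
    · rfl
  have hpow := norm_pow_fin (e D k j) S hout
  have hcard : (S.card : ℝ) ≤ 2 * Mm k := by
    have h1 : S.card ≤ 2 * Mm k := by
      refine (Finset.card_union_le _ _).trans ?_
      rw [Finset.card_product, Finset.card_product, Finset.card_singleton, Finset.card_singleton,
        Finset.card_range]
      omega
    exact_mod_cast h1
  have hM : (1 : ℝ) ≤ 2 * Mm k := by
    have : (1 : ℝ) ≤ (Mm k : ℝ) := by exact_mod_cast Mm_pos' k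
    linarith
  have hle : ∑ w ∈ S, |(e D k j) w| ^ 40 ≤ (S.card : ℝ) := by
    have h2 : ∑ w ∈ S, |(e D k j) w| ^ 40 ≤ ∑ w ∈ S, (1 : ℝ) := by
      apply Finset.sum_le_sum
      intro w _
      rw [e_apply]
      exact pow_le_one₀ (abs_nonneg _) (eF_abs_le_one D k j w)
    rw [Finset.sum_const, nsmul_eq_mul, mul_one] at h2
    exact h2
  rw [← hpow] at hle
  have hle2 := hle.trans hcard
  generalize (2 * (Mm k : ℝ)) = M at hM hle2 ⊢
  have h3 : ‖e D k j‖ ^ 40 ≤ M ^ 40 := hle2.trans (le_self_pow₀ hM (by norm_num))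
  exact le_of_pow_le_pow_left₀ (by norm_num) (by linarith) h3

theorem e_zero (k j : ℕ) (hj : D.N k ≤ j) : e D k j = 0 := by
  apply lp.ext
  funext w
  have h1 : (e D k j) w = 0 := by
    rw [e_apply]
    unfold eF
    split_ifs with h1 h2 h3 h3
    · omega
    · rw [D.A0 k j w.2 hj, add_zero]
    · have h4 : D.N (w.1 + 1) ≤ j := by rw [h3]; exact hj
      rw [D.B0 w.1 j w.2 h4, add_zero]
    · simp
    · rfl
  rw [h1]
  rfl

end Pool.Agent.Helper983.GC
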