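import Pool.Agent.Helper983.GC.Defs
import Pool.Agent.Helper983.GC.P_nu_facts
import Pool.Agent.Helper983.GC.P_P_facts

set_option autoImplicit false

namespace Pool.Agent.Helper983.GC

open Finset MeasureTheory

variable (D : Dsg)


/-- density of `nu` -/
noncomputable def ph (t : ℝ) : ℝ := 15 / 16 * (max (1 - t ^ 2) 0) ^ 2

/-- its derivative -/
noncomputable def dph (t : ℝ) : ℝ := -(15 / 4) * t * max (1 - t ^ 2) 0

theorem sm_m (x : ℝ) : HasDerivAt (fun x : ℝ => (max x 0) ^ 2) (2 * max x 0) x := by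
  refine hasDerivAt_of_hasDerivAt_of_ne' (f := fun x : ℝ => (max x 0) ^ 2)
    (g := fun x : ℝ => 2 * max x 0) (x := 0) ?_ ?_ ?_ x
  · intro y hy
    rcases lt_or_gt_of_ne hy with h | h
    · have h1 : (fun x : ℝ => (max x 0) ^ 2) =ᶠ[nhds y] fun _ => (0 : ℝ) := by
        filter_upwards [gt_mem_nhds h] with z hz
        rw [max_eq_right hz.le]; norm_num
      have h2 : (2 : ℝ) * max y 0 = 0 := by rw [max_eq_right h.le]; norm_num
      rw [h2]
      exact (hasDerivAt_const y (0 : ℝ)).congr_of_eventuallyEq h1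
    · have h1 : (fun x : ℝ => (max x 0) ^ 2) =ᶠ[nhds y] fun x => x ^ 2 := by
        filter_upwards [lt_mem_nhds h] with z hz
        rw [max_eq_left hz.le]
      have h2 : (2 : ℝ) * max y 0 = 2 * y := by rw [max_eq_left h.le]
      rw [h2]
      have h3 : HasDerivAt (fun x : ℝ => x ^ 2) (2 * y) y := by
        simpa using hasDerivAt_pow 2 y
      exact h3.congr_of_eventuallyEq h1
  · exact Continuous.continuousAt (by fun_prop)
  · exact Continuous.continuousAt (by fun_prop)

theorem sm_ph (t : ℝ) : HasDerivAt ph (dph t) t := by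
  have h1 : HasDerivAt (fun t : ℝ => 1 - t ^ 2) (-(2 * t)) t := by
    have := (hasDerivAt_pow 2 t).const_sub 1
    simpa using this
  have h2 := ((sm_m (1 - t ^ 2)).comp t h1).const_mul (15 / 16)
  have e : 15 / 16 * (2 * max (1 - t ^ 2) 0 * -(2 * t)) = dph t := by unfold dph; ring
  rw [e] at h2
  exact h2

theorem sm_ph_cont : Continuous ph := by unfold ph; fun_prop
theorem sm_dph_cont : Continuous dph := by unfold dph; fun_prop

theorem sm_psi (t : ℝ) : psi t * ph t = -dph t := by
  unfold psi ph dph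
  by_cases h : 0 < 1 - t ^ 2
  · rw [max_eq_left h.le]
    field_simp
    ring
  · rw [max_eq_right (not_lt.1 h)]
    simp

theorem sm_max_le (t : ℝ) : max (1 - t ^ 2) 0 ≤ 1 := max_le (by nlinarith [sq_nonneg t]) (by norm_num)

theorem sm_ph_nonneg (t : ℝ) : 0 ≤ ph t := by unfold ph; positivity

theorem sm_ph_le (t : ℝ) : ph t ≤ 1 := by
  unfold ph
  have h1 := sm_max_le t
  have h2 : 0 ≤ max (1 - t ^ 2) 0 := le_max_right _ _
  nlinarith [mul_le_one₀ h1 h2 h1]

theorem sm_zero {t : ℝ} (h : 1 ≤ |t|) : ph t = 0 ∧ dph t = 0 := by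
  have h1 : 1 - t ^ 2 ≤ 0 := by
    have : 1 ≤ t ^ 2 := by
      rw [← sq_abs]; nlinarith
    linarith
  unfold ph dph
  rw [max_eq_right h1]
  simp

theorem sm_dph_le (t : ℝ) : |dph t| ≤ 15 / 4 := by
  by_cases h : 1 ≤ |t|
  · rw [(sm_zero h).2, abs_zero]; norm_num
  · unfold dph
    have h1 := sm_max_le t
    have h2 : 0 ≤ max (1 - t ^ 2) 0 := le_max_right _ _
    rw [abs_mul, abs_mul, abs_neg, abs_of_nonneg h2, abs_of_nonneg (by norm_num : (0 : ℝ) ≤ 15 / 4)]
    have h3 : |t| ≤ 1 := (not_le.1 h).le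
    calc 15 / 4 * |t| * max (1 - t ^ 2) 0 ≤ 15 / 4 * 1 * 1 := by gcongr
      _ = _ := by norm_num

theorem sm_nu_eq : nu = volume.withDensity (fun t => ENNReal.ofReal (ph t)) := by
  unfold nu
  rw [← withDensity_indicator measurableSet_Icc]
  congr 1
  funext t
  by_cases h : t ∈ Set.Icc (-1 : ℝ) 1
  · rw [Set.indicator_of_mem h]
    have h1 : 0 ≤ 1 - t ^ 2 := by nlinarith [h.1, h.2]
    unfold ph
    rw [max_eq_left h1]
  · rw [Set.indicator_of_notMem h]
    have h1 : 1 ≤ |t| := by
      by_contra hcon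
      have := abs_lt.1 (not_le.1 hcon)
      exact h ⟨this.1.le, this.2.le⟩
    rw [(sm_zero h1).1, ENNReal.ofReal_zero]

section
variable {ι : Type} [Fintype ι]

theorem sm_out {u : ι → ℝ} {R : ℝ} (hR : 0 ≤ R) (hu : u ∉ Metric.closedBall (0 : ι → ℝ) R) :
    ∃ i, R < |u i| := by
  rw [mem_closedBall_zero_iff, pi_norm_le_iff_of_nonneg hR] at hu
  push Not at hu
  exact hu

theorem sm_g_cont : Continuous fun u : ι → ℝ => ∏ i, ph (u i) :=
  continuous_finsetProd _ fun i _ => sm_ph_cont.comp (continuous_apply i)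

theorem sm_g_zero {u : ι → ℝ} (hu : u ∉ Metric.closedBall (0 : ι → ℝ) 1) : ∏ i, ph (u i) = 0 := by
  obtain ⟨i, hi⟩ := sm_out zero_le_one hu
  exact Finset.prod_eq_zero (Finset.mem_univ i) (sm_zero hi.le).1

theorem sm_g_supp : HasCompactSupport fun u : ι → ℝ => ∏ i, ph (u i) :=
  HasCompactSupport.intro (isCompact_closedBall (0 : ι → ℝ) 1) fun _ hu => sm_g_zero hu

theorem sm_g_int : Integrable fun u : ι → ℝ => ∏ i, ph (u i) :=
  sm_g_cont.integrable_of_hasCompactSupport sm_g_supp

theorem sm_g_nonneg (u : ι → ℝ) : 0 ≤ ∏ i, ph (u i) := Finset.prod_nonneg fun i _ => sm_ph_nonneg _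

theorem sm_P_eq : P ι = volume.withDensity (fun u : ι → ℝ => ENNReal.ofReal (∏ i, ph (u i))) := by
  unfold P
  refine Measure.pi_eq fun s hs => ?_
  rw [withDensity_apply _ (MeasurableSet.univ_pi hs),
    ← ofReal_integral_eq_lintegral_ofReal sm_g_int.integrableOn
      (Filter.Eventually.of_forall fun u => sm_g_nonneg u)]
  have hph : Integrable ph := by
    refine sm_ph_cont.integrable_of_hasCompactSupport ?_
    refine HasCompactSupport.intro (isCompact_Icc (a := (-1 : ℝ)) (b := 1)) fun t ht => ?_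
    refine (sm_zero ?_).1
    by_contra hcon
    have := abs_lt.1 (not_le.1 hcon)
    exact ht ⟨this.1.le, this.2.le⟩
  have e : ∫ u in Set.univ.pi s, ∏ i, ph (u i) = ∏ i, ∫ t in s i, ph t := by
    rw [← integral_indicator (MeasurableSet.univ_pi hs)]
    have h1 : ∀ i, ∫ t in s i, ph t = ∫ t, (s i).indicator ph t := fun i =>
      (integral_indicator (hs i)).symm
    simp_rw [h1]
    rw [← integral_fintype_prod_volume_eq_prod (fun i => (s i).indicator ph)]
    refine integral_congr_ae (Filter.Eventually.of_forall fun u => ?_)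
    simp only []
    by_cases hu : u ∈ Set.univ.pi s
    · rw [Set.indicator_of_mem hu]
      refine Finset.prod_congr rfl fun i _ => ?_
      rw [Set.indicator_of_mem (hu i (Set.mem_univ i))]
    · rw [Set.indicator_of_notMem hu]
      have : ∃ i, u i ∉ s i := by
        by_contra hcon
        push Not at hcon
        exact hu fun i _ => hcon i
      obtain ⟨i, hi⟩ := this
      symm
      refine Finset.prod_eq_zero (Finset.mem_univ i) ?_
      rw [Set.indicator_of_notMem hi]
  rw [e, ENNReal.ofReal_prod_of_nonneg fun i _ => setIntegral_nonneg (hs i) fun t _ => sm_ph_nonneg t]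
  refine Finset.prod_congr rfl fun i _ => ?_
  rw [sm_nu_eq, withDensity_apply _ (hs i), ofReal_integral_eq_lintegral_ofReal hph.integrableOn
    (Filter.Eventually.of_forall fun u => sm_ph_nonneg u)]

theorem sm_P_int {Y : Type*} [NormedAddCommGroup Y] [NormedSpace ℝ Y] (f : (ι → ℝ) → Y) :
    ∫ u, f u ∂P ι = ∫ u : ι → ℝ, (∏ i, ph (u i)) • f u := by
  rw [sm_P_eq, integral_withDensity_eq_integral_toReal_smul
    (sm_g_cont.measurable.ennreal_ofReal) (Filter.Eventually.of_forall fun u => ENNReal.ofReal_lt_top)]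
  refine integral_congr_ae (Filter.Eventually.of_forall fun u => ?_)
  simp only []
  rw [ENNReal.toReal_ofReal (sm_g_nonneg u)]

theorem sm_one : ∫ u : ι → ℝ, ∏ i, ph (u i) = 1 := by
  have h := sm_P_int (ι := ι) (fun _ => (1 : ℝ))
  simp only [smul_eq_mul, mul_one] at h
  rw [← h]
  simp

end

theorem smooth {ι : Type} [Fintype ι] {Y : Type*} [NormedAddCommGroup Y] [NormedSpace ℝ Y]
    [CompleteSpace Y] (Q : (ι → ℝ) → Y) (hQ : Continuous Q) (v : ι → ℝ) (c : ℝ) (hc : 0 ≤ c)
    (h : ∀ u (t : ℝ), ‖Q (u + t • v) - Q u‖ ≤ c * |t|) :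
    ‖∑ i, v i • ∫ u, psi (u i) • Q u ∂P ι‖ ≤ c := by
  classical
  let H : ℝ → (ι → ℝ) → Y := fun t u => (∏ i, ph (u i - t * v i)) • Q u
  let H' : ℝ → (ι → ℝ) → Y := fun t u =>
    (∑ i, (∏ j ∈ Finset.univ.erase i, ph (u j - t * v j)) • (dph (u i - t * v i) * (-v i))) • Q u
  have hHc : ∀ t, Continuous (H t) := fun t =>
    (continuous_finsetProd _ fun i _ => sm_ph_cont.comp (by fun_prop)).smul hQ
  have hH'c : ∀ t, Continuous (H' t) := fun t =>
    (continuous_finsetSum _ fun i _ => (continuous_finsetProd _ fun j _ =>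
      sm_ph_cont.comp (by fun_prop)).smul ((sm_dph_cont.comp (by fun_prop)).mul
        continuous_const)).smul hQ
  obtain ⟨MQ, hMQ⟩ := (isCompact_closedBall (0 : ι → ℝ) (1 + ‖v‖)).exists_bound_of_continuousOn
    hQ.continuousOn
  have hMQ0 : 0 ≤ MQ := (norm_nonneg _).trans (hMQ 0 (by
    rw [mem_closedBall_zero_iff, norm_zero]; positivity))
  have hsm : ∀ t ∈ Metric.ball (0 : ℝ) 1, ∀ u : ι → ℝ, ∀ i, 1 + ‖v‖ < |u i| → 1 ≤ |u i - t * v i| := by
    intro t ht u i hi
    have h1 : |t| < 1 := by simpa using ht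
    have h2 : |v i| ≤ ‖v‖ := norm_le_pi_norm v i
    have h3 : |u i| ≤ |u i - t * v i| + |t * v i| := by
      have := abs_add_le (u i - t * v i) (t * v i)
      rwa [sub_add_cancel] at this
    rw [abs_mul] at h3
    have h4 : |t| * |v i| ≤ 1 * ‖v‖ := by gcongr
    linarith
  have hder := hasDerivAt_integral_of_dominated_loc_of_deriv_le (μ := (volume : Measure (ι → ℝ)))
    (𝕜 := ℝ) (F := H) (F' := H') (x₀ := 0) (s := Metric.ball (0 : ℝ) 1)
    (bound := (Metric.closedBall (0 : ι → ℝ) (1 + ‖v‖)).indicator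
      (fun _ => (∑ i, 15 / 4 * |v i|) * MQ))
    (Metric.ball_mem_nhds 0 one_pos)
    (Filter.Eventually.of_forall fun t => (hHc t).aestronglyMeasurable)
    ?_ (hH'c 0).aestronglyMeasurable ?_ ?_ ?_
  · -- main part
    have hF : ∀ t, ∫ u, H t u = ∫ u : ι → ℝ, (∏ i, ph (u i)) • Q (u + t • v) := by
      intro t
      rw [← integral_add_right_eq_self (H t) (t • v)]
      refine integral_congr_ae (Filter.Eventually.of_forall fun u => ?_)
      simp only [H, Pi.add_apply, Pi.smul_apply, smul_eq_mul, add_sub_cancel_right]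
    have hgQ : ∀ t : ℝ, Integrable fun u : ι → ℝ => (∏ i, ph (u i)) • Q (u + t • v) := by
      intro t
      refine Continuous.integrable_of_hasCompactSupport
        (sm_g_cont.smul (hQ.comp (by fun_prop))) ?_
      refine HasCompactSupport.intro (isCompact_closedBall (0 : ι → ℝ) 1) fun u hu => ?_
      rw [sm_g_zero hu, zero_smul]
    have hlip : ∀ t, ‖(∫ u, H t u) - ∫ u, H 0 u‖ ≤ c * ‖t - 0‖ := by
      intro t
      rw [hF t, hF 0, ← integral_sub (hgQ t) (hgQ 0), sub_zero]
      have hle : ∀ u : ι → ℝ, ‖(∏ i, ph (u i)) • Q (u + t • v) -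
          (∏ i, ph (u i)) • Q (u + (0 : ℝ) • v)‖ ≤ (∏ i, ph (u i)) * (c * ‖t‖) := by
        intro u
        rw [← smul_sub, norm_smul, Real.norm_of_nonneg (sm_g_nonneg u), zero_smul, add_zero]
        exact mul_le_mul_of_nonneg_left (h u t) (sm_g_nonneg u)
      refine (norm_integral_le_of_norm_le (sm_g_int.mul_const _)
        (Filter.Eventually.of_forall hle)).trans (le_of_eq ?_)
      rw [integral_mul_const, sm_one, one_mul]
    have hbound : ‖∫ u, H' 0 u‖ ≤ c := by
      have h1 := (hder.2.hasFDerivAt).le_of_lip' hc (Filter.Eventually.of_forall hlip)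
      have h2 := ContinuousLinearMap.le_opNorm
        (ContinuousLinearMap.toSpanSingleton ℝ (∫ u, H' 0 u)) (1 : ℝ)
      rw [ContinuousLinearMap.toSpanSingleton_apply, one_smul, norm_one, mul_one] at h2
      exact h2.trans h1
    have hterm : ∀ i, ∀ u : ι → ℝ, v i • ((∏ j, ph (u j)) • (psi (u i) • Q u)) =
        ((∏ j ∈ Finset.univ.erase i, ph (u j - 0 * v j)) • (dph (u i - 0 * v i) * (-v i))) • Q u := by
      intro i u
      rw [smul_smul, smul_smul]
      congr 1
      simp only [zero_mul, sub_zero, smul_eq_mul]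
      rw [← Finset.prod_erase_mul Finset.univ _ (Finset.mem_univ i)]
      have := sm_psi (u i)
      linear_combination (v i * ∏ j ∈ Finset.univ.erase i, ph (u j)) * this
    have hti : ∀ i, Integrable fun u : ι → ℝ => v i • ((∏ j, ph (u j)) • (psi (u i) • Q u)) := by
      intro i
      have h1 : Continuous fun u : ι → ℝ => v i • ((∏ j, ph (u j)) • (psi (u i) • Q u)) := by
        simp_rw [hterm i]
        exact ((continuous_finsetProd _ fun j _ => sm_ph_cont.comp (by fun_prop)).smul
          ((sm_dph_cont.comp (by fun_prop)).mul continuous_const)).smul hQ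
      refine h1.integrable_of_hasCompactSupport ?_
      refine HasCompactSupport.intro (isCompact_closedBall (0 : ι → ℝ) 1) fun u hu => ?_
      rw [sm_g_zero hu, zero_smul, smul_zero]
    have hfin : ∑ i, v i • ∫ u, psi (u i) • Q u ∂P ι = ∫ u, H' 0 u := by
      have e1 : ∀ u, H' 0 u = ∑ i, v i • ((∏ j, ph (u j)) • (psi (u i) • Q u)) := by
        intro u
        simp only [H']
        rw [Finset.sum_smul]
        exact Finset.sum_congr rfl fun i _ => (hterm i u).symm
      simp_rw [e1]
      rw [integral_finsetSum _ fun i _ => hti i]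
      refine Finset.sum_congr rfl fun i _ => ?_
      rw [sm_P_int, integral_smul]
    rw [hfin]
    exact hbound
  · refine (hHc 0).integrable_of_hasCompactSupport ?_
    refine HasCompactSupport.intro (isCompact_closedBall (0 : ι → ℝ) 1) fun u hu => ?_
    simp only [H, zero_mul, sub_zero]
    rw [sm_g_zero hu, zero_smul]
  · refine Filter.Eventually.of_forall fun u t ht => ?_
    by_cases hu : u ∈ Metric.closedBall (0 : ι → ℝ) (1 + ‖v‖)
    · rw [Set.indicator_of_mem hu]
      simp only [H']
      rw [norm_smul]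
      refine mul_le_mul ?_ (hMQ u hu) (norm_nonneg _) (Finset.sum_nonneg fun i _ => by positivity)
      refine (norm_sum_le _ _).trans (Finset.sum_le_sum fun i _ => ?_)
      rw [smul_eq_mul, norm_mul, norm_mul, norm_neg, Real.norm_eq_abs, Real.norm_eq_abs,
        Real.norm_eq_abs]
      have h1 : |∏ j ∈ Finset.univ.erase i, ph (u j - t * v j)| ≤ 1 := by
        rw [abs_of_nonneg (Finset.prod_nonneg fun j _ => sm_ph_nonneg _)]
        exact Finset.prod_le_one (fun j _ => sm_ph_nonneg _) fun j _ => sm_ph_le _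
      have h2 := sm_dph_le (u i - t * v i)
      calc |∏ j ∈ Finset.univ.erase i, ph (u j - t * v j)| * (|dph (u i - t * v i)| * |v i|)
          ≤ 1 * (15 / 4 * |v i|) := by gcongr
        _ = _ := one_mul _
    · rw [Set.indicator_of_notMem hu]
      obtain ⟨k, hk⟩ := sm_out (by positivity) hu
      have hk1 := hsm t ht u k hk
      have : H' t u = 0 := by
        simp only [H']
        rw [Finset.sum_eq_zero, zero_smul]
        intro i _
        by_cases hik : i = k
        · subst hik
          rw [(sm_zero hk1).2]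
          simp
        · rw [Finset.prod_eq_zero (Finset.mem_erase.2 ⟨fun h => hik h.symm, Finset.mem_univ k⟩)
            (sm_zero hk1).1, zero_smul]
      rw [this, norm_zero]
  · exact (integrable_indicator_iff measurableSet_closedBall).2
      (integrableOn_const (measure_closedBall_lt_top.ne))
  · refine Filter.Eventually.of_forall fun u t _ => ?_
    simp only [H, H']
    refine HasDerivAt.smul_const ?_ (Q u)
    refine HasDerivAt.fun_finsetProd fun i _ => ?_
    have h1 : HasDerivAt (fun t : ℝ => u i - t * v i) (-v i) t := by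
      have := ((hasDerivAt_id t).mul_const (v i)).const_sub (u i)
      simpa using this
    have h2 : HasDerivAt (ph ∘ fun t : ℝ => u i - t * v i) (dph (u i - t * v i) * (-v i)) t :=
      HasDerivAt.comp (h₂ := ph) t (sm_ph (u i - t * v i)) h1
    exact h2

end Pool.Agent.Helper983.GC
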