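import Pool.Agent.Helper983.GC.Defs
import Pool.Agent.Helper983.GC.P_nu_facts
import Pool.Agent.Helper983.GC.P_P_facts
import Pool.Agent.Helper983.GC.P_smooth

set_option autoImplicit false

namespace Pool.Agent.Helper983.GC

open Finset MeasureTheory

variable (D : Dsg)



theorem lin_bound_pt (m J : ℕ) (δ : ℕ → ℝ) (hδ : ∀ k, 0 < δ k) (x0 : Zs D)
    (v u : Fin m × Fin J → ℝ) (t : ℝ) :
    pt D m J δ x0 (u + t • fun p => v p / δ p.1) - pt D m J δ x0 u =
      t • ∑ p : Fin m × Fin J, v p • eZ D p.1 p.2 := by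
  unfold pt
  rw [add_sub_add_left_eq_sub, ← Finset.sum_sub_distrib, Finset.smul_sum]
  refine Finset.sum_congr rfl fun p _ => ?_
  rw [← sub_smul, smul_smul]
  congr 1
  have h := (hδ p.1).ne'
  simp only [Pi.add_apply, Pi.smul_apply, smul_eq_mul]
  field_simp
  ring

theorem lin_bound_cont (m J : ℕ) (δ : ℕ → ℝ) (x0 : Zs D) :
    Continuous (fun u : Fin m × Fin J → ℝ => pt D m J δ x0 u) := by
  unfold pt
  refine continuous_const.add (continuous_finsetSum _ fun p _ => ?_)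
  exact (continuous_const.mul (continuous_apply p)).smul continuous_const


theorem lin_bound (m J : ℕ) (δ : ℕ → ℝ) (hδ : ∀ k, 0 < δ k) (x0 : Zs D) (R : Zs D → Zs D)
    (Lc : ℝ) (hL : 0 ≤ Lc) (hR : ∀ x y, ‖R x - R y‖ ≤ Lc * ‖x - y‖)
    (v : Fin m × Fin J → ℝ) :
    ‖∑ p, v p • Tv D m J δ x0 R p‖ ≤ Lc * ‖∑ p : Fin m × Fin J, v p • eZ D p.1 p.2‖ := by
  have hRc : Continuous R := by
    have h1 : LipschitzWith (Real.toNNReal Lc) R := by
      refine LipschitzWith.of_dist_le_mul fun x y => ?_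
      rw [dist_eq_norm, dist_eq_norm, Real.coe_toNNReal _ hL]
      exact hR x y
    exact h1.continuous
  have hQ : Continuous (fun u : Fin m × Fin J → ℝ => R (pt D m J δ x0 u)) :=
    hRc.comp (lin_bound_cont D m J δ x0)
  have h1 := smooth (fun u : Fin m × Fin J → ℝ => R (pt D m J δ x0 u)) hQ
    (fun p => v p / δ p.1) (Lc * ‖∑ p : Fin m × Fin J, v p • eZ D p.1 p.2‖)
    (mul_nonneg hL (norm_nonneg _)) (fun u t => by
      refine (hR _ _).trans ?_
      rw [lin_bound_pt D m J δ hδ x0 v u t, norm_smul, Real.norm_eq_abs]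
      apply le_of_eq
      ring)
  have h2 : ∑ p, v p • Tv D m J δ x0 R p = ∑ p : Fin m × Fin J, (v p / δ p.1) •
      ∫ u, psi (u p) • R (pt D m J δ x0 u) ∂P (Fin m × Fin J) := by
    refine Finset.sum_congr rfl fun p _ => ?_
    unfold Tv
    rw [smul_smul, div_eq_mul_inv]
  rw [h2]
  exact h1


end Pool.Agent.Helper983.GC
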