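import Pool.Agent.Helper983.GC.Defs
import Pool.Agent.Helper983.GC.P_nu_facts
import Pool.Agent.Helper983.GC.P_P_facts

set_option autoImplicit false

namespace Pool.Agent.Helper983.GC

open Finset MeasureTheory

variable (D : Dsg)


theorem mo5_intid : Integrable (fun t : ℝ => t) nu := by
  refine Integrable.of_bound measurable_id.aestronglyMeasurable 1 ?_
  filter_upwards [nu_bdd] with t ht
  simpa [Real.norm_eq_abs] using ht

theorem mo5_intexp (a : ℝ) : Integrable (fun t : ℝ => Real.exp (a * t)) nu := by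
  refine Integrable.of_bound (by fun_prop) (Real.exp |a|) ?_
  filter_upwards [nu_bdd] with t ht
  rw [Real.norm_eq_abs, Real.abs_exp]
  refine Real.exp_le_exp.2 ((le_abs_self _).trans ?_)
  rw [abs_mul]
  nlinarith [abs_nonneg a, abs_nonneg t]

theorem mo5_one (a : ℝ) : ∫ t, Real.exp (a * t) ∂nu ≤ Real.exp (a ^ 2 / 2) := by
  have h1 : ∫ t, Real.exp (a * t) ∂nu ≤ ∫ t, (Real.cosh a + Real.sinh a * t) ∂nu := by
    refine integral_mono_ae (mo5_intexp a) ((integrable_const _).add (mo5_intid.const_mul _)) ?_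
    filter_upwards [nu_bdd] with t ht
    have h2 := abs_le.1 ht
    have h3 := convexOn_exp.2 (Set.mem_univ a) (Set.mem_univ (-a))
      (show 0 ≤ (1 + t) / 2 by linarith) (show 0 ≤ (1 - t) / 2 by linarith) (by ring)
    simp only [smul_eq_mul] at h3
    have e1 : (1 + t) / 2 * a + (1 - t) / 2 * -a = a * t := by ring
    rw [e1] at h3
    refine h3.trans (le_of_eq ?_)
    rw [Real.cosh_eq, Real.sinh_eq]; ring
  have h2 : ∫ t, (Real.cosh a + Real.sinh a * t) ∂nu = Real.cosh a := by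
    have e : ∫ t, (Real.cosh a + Real.sinh a * t) ∂nu =
        ∫ _, Real.cosh a ∂nu + ∫ t, Real.sinh a * t ∂nu :=
      integral_add (integrable_const _) (mo5_intid.const_mul _)
    rw [e, integral_const, integral_const_mul, nu_id]
    simp
  rw [h2] at h1
  exact h1.trans (Real.cosh_le_exp_half_sq a)

theorem mo5_exp (ι : Type) [Fintype ι] (b : ι → ℝ) :
    Integrable (fun u : ι → ℝ => Real.exp (∑ i, b i * u i)) (P ι) ∧
    ∫ u : ι → ℝ, Real.exp (∑ i, b i * u i) ∂P ι ≤ Real.exp ((∑ i, b i ^ 2) / 2) := by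
  have e1 : (fun u : ι → ℝ => Real.exp (∑ i, b i * u i)) =
      fun u : ι → ℝ => ∏ i, (fun t : ℝ => Real.exp (b i * t)) (u i) := by
    funext u
    rw [Real.exp_sum]
  rw [e1]
  unfold P
  constructor
  · exact Integrable.fintype_prod_dep fun i => mo5_intexp (b i)
  · rw [integral_fintype_prod_eq_prod (𝕜 := ℝ) (fun i => fun t : ℝ => Real.exp (b i * t)),
      Finset.sum_div, Real.exp_sum]
    refine Finset.prod_le_prod (fun i _ => integral_nonneg fun t => (Real.exp_pos _).le) ?_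
    intro i _
    exact mo5_one (b i)

theorem mo5_S (ι : Type) [Fintype ι] (S : Finset ι) (c : ι → ℝ) (hc : ∀ i, |c i| ≤ 1) (s : ℝ) :
    Integrable (fun u : ι → ℝ => Real.exp (s * ∑ i ∈ S, c i * u i)) (P ι) ∧
    ∫ u : ι → ℝ, Real.exp (s * ∑ i ∈ S, c i * u i) ∂P ι ≤
      Real.exp (s ^ 2 * (S.card : ℝ) / 2) := by
  classical
  set b : ι → ℝ := fun i => if i ∈ S then s * c i else 0 with hb
  have e1 : ∀ u : ι → ℝ, s * ∑ i ∈ S, c i * u i = ∑ i, b i * u i := by
    intro u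
    rw [Finset.mul_sum]
    have : ∀ i, b i * u i = if i ∈ S then s * (c i * u i) else 0 := by
      intro i
      simp only [hb]
      split_ifs <;> ring
    simp only [this]
    rw [Finset.sum_ite_mem, Finset.univ_inter]
  simp only [e1]
  obtain ⟨h1, h2⟩ := mo5_exp ι b
  refine ⟨h1, h2.trans (Real.exp_le_exp.2 ?_)⟩
  have h3 : ∑ i, b i ^ 2 ≤ s ^ 2 * (S.card : ℝ) := by
    have : ∀ i, b i ^ 2 = if i ∈ S then s ^ 2 * c i ^ 2 else 0 := by
      intro i
      simp only [hb]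
      split_ifs <;> ring
    simp only [this]
    rw [Finset.sum_ite_mem, Finset.univ_inter, ← Finset.mul_sum]
    refine mul_le_mul_of_nonneg_left ?_ (sq_nonneg s)
    calc ∑ i ∈ S, c i ^ 2 ≤ ∑ i ∈ S, (1 : ℝ) := Finset.sum_le_sum fun i _ => by
          have := abs_le.1 (hc i)
          nlinarith
      _ = (S.card : ℝ) := by simp
  linarith



theorem moment (ι : Type) [Fintype ι] (S : Finset ι) (c : ι → ℝ) (hc : ∀ i, |c i| ≤ 1) :
    ∫ u : ι → ℝ, (∑ i ∈ S, c i * u i) ^ 40 ∂P ι ≤ Cm * (S.card : ℝ) ^ 20 := by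
  rcases Nat.eq_zero_or_pos S.card with h0 | h0
  · rw [Finset.card_eq_zero.1 h0]; simp
  · set N : ℝ := (S.card : ℝ) with hNdef
    have hN : 0 < N := by rw [hNdef]; exact_mod_cast h0
    set l : ℝ := (Real.sqrt N)⁻¹ with hl
    have hl2 : l ^ 2 = N⁻¹ := by rw [hl, inv_pow, Real.sq_sqrt hN.le]
    have hl40 : l ^ 40 = (N ^ 20)⁻¹ := by
      have : l ^ 40 = (l ^ 2) ^ 20 := by ring
      rw [this, hl2, inv_pow]
    obtain ⟨g1, g2⟩ := mo5_S ι S c hc l
    obtain ⟨g3, g4⟩ := mo5_S ι S c hc (-l)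
    rw [neg_sq] at g4
    rw [hl2, inv_mul_cancel₀ hN.ne'] at g2 g4
    have hF : (0 : ℝ) < (Nat.factorial 40 : ℝ) := by exact_mod_cast Nat.factorial_pos 40
    have hpt : ∀ X : ℝ, X ^ 40 ≤ (Nat.factorial 40 : ℝ) * N ^ 20 / 2 *
        (Real.exp (l * X) + Real.exp (-l * X)) := by
      intro X
      have h1 : (l * X) ^ (2 * 20) / (Nat.factorial (2 * 20) : ℝ) ≤ Real.cosh (l * X) := by
        refine le_hasSum (Real.hasSum_cosh (l * X)) 20 fun j _ => ?_
        rw [pow_mul]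
        positivity
      rw [show (2 * 20 : ℕ) = 40 from rfl, mul_pow, hl40, Real.cosh_eq, div_le_iff₀ hF] at h1
      have hN20 : (0 : ℝ) < N ^ 20 := by positivity
      rw [inv_mul_le_iff₀ hN20] at h1
      refine h1.trans (le_of_eq ?_)
      rw [neg_mul]
      ring
    have h1 : ∫ u : ι → ℝ, (∑ i ∈ S, c i * u i) ^ 40 ∂P ι ≤
        ∫ u : ι → ℝ, (Nat.factorial 40 : ℝ) * N ^ 20 / 2 *
        (Real.exp (l * ∑ i ∈ S, c i * u i) + Real.exp (-l * ∑ i ∈ S, c i * u i)) ∂P ι := by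
      refine integral_mono_of_nonneg (Filter.Eventually.of_forall fun u => ?_)
        ((g1.add g3).const_mul _) (Filter.Eventually.of_forall fun u => hpt _)
      exact Even.pow_nonneg (by decide) _
    have h2 : ∫ u : ι → ℝ, (Nat.factorial 40 : ℝ) * N ^ 20 / 2 *
        (Real.exp (l * ∑ i ∈ S, c i * u i) + Real.exp (-l * ∑ i ∈ S, c i * u i)) ∂P ι =
        (Nat.factorial 40 : ℝ) * N ^ 20 / 2 * (∫ u : ι → ℝ, Real.exp (l * ∑ i ∈ S, c i * u i) ∂P ι +
        ∫ u : ι → ℝ, Real.exp (-l * ∑ i ∈ S, c i * u i) ∂P ι) := by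
      rw [integral_const_mul]
      congr 1
      exact integral_add g1 g3
    have h3 : Real.exp (1 / 2) ≤ 2 := by
      have h4 : Real.exp (1 / 2) ^ 2 = Real.exp 1 := by
        rw [← Real.exp_nat_mul]; norm_num
      have h5 := Real.exp_one_lt_d9
      nlinarith [Real.exp_pos (1 / 2 : ℝ)]
    rw [h2] at h1
    refine h1.trans ?_
    unfold Cm
    have h6 : ∫ u : ι → ℝ, Real.exp (l * ∑ i ∈ S, c i * u i) ∂P ι +
        ∫ u : ι → ℝ, Real.exp (-l * ∑ i ∈ S, c i * u i) ∂P ι ≤ 4 := by linarith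
    calc (Nat.factorial 40 : ℝ) * N ^ 20 / 2 * (∫ u : ι → ℝ, Real.exp (l * ∑ i ∈ S, c i * u i) ∂P ι +
        ∫ u : ι → ℝ, Real.exp (-l * ∑ i ∈ S, c i * u i) ∂P ι)
        ≤ (Nat.factorial 40 : ℝ) * N ^ 20 / 2 * 4 := mul_le_mul_of_nonneg_left h6 (by positivity)
      _ = 2 * (Nat.factorial 40 : ℝ) * N ^ 20 := by ring

end Pool.Agent.Helper983.GC
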