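import Pool.Agent.Helper983.GC.Defs

set_option autoImplicit false

namespace Pool.Agent.Helper983.GC

open Finset MeasureTheory

variable (D : Dsg)

theorem near_conv {X : Type*} [NormedAddCommGroup X] [NormedSpace ℝ X] {K : Set X}
    (hK : Convex ℝ K) (h0 : (0 : X) ∈ K) (T : Finset X) (hT : (T : Set X) ⊆ K) (w : X → ℝ)
    (hw : ∀ κ ∈ T, 0 ≤ w κ) (hs : ∑ κ ∈ T, w κ ≤ 1) : ∑ κ ∈ T, w κ • κ ∈ K := by
  classical
  have h := hK.sum_mem (t := Finset.insertNone T)
    (w := fun o : Option X => o.elim (1 - ∑ κ ∈ T, w κ) w) (z := fun o : Option X => o.elim 0 id)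
    (by
      intro o ho
      cases o with
      | none => simp only [Option.elim]; linarith
      | some κ =>
        simp only [Option.elim]
        exact hw κ (by simpa using ho))
    (by
      rw [Finset.sum_insertNone]
      simp only [Option.elim]
      ring)
    (by
      intro o ho
      cases o with
      | none => exact h0
      | some κ => exact hT (by simpa using ho))
  rw [Finset.sum_insertNone] at h
  simpa using h





theorem near {X : Type*} [NormedAddCommGroup X] [NormedSpace ℝ X] (K : Set X)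
    (hK : Convex ℝ K) (h0 : (0 : X) ∈ K)
    (hd : Dense ((Submodule.span ℝ K : Submodule ℝ X) : Set X)) (R : X → X) (Lc : ℝ)
    (hL : 0 ≤ Lc) (hR : ∀ x y, ‖R x - R y‖ ≤ Lc * ‖x - y‖) (hfix : ∀ x ∈ K, R x = x)
    (n : ℕ) (y : ℕ → X) (θ : ℝ) (hθ : 0 < θ) :
    ∃ (x0 : X) (r : ℝ), 0 < r ∧ ∀ t : ℕ → ℝ, (∀ i, i < n → |t i| ≤ 1) →
      ‖R (x0 + r • ∑ i ∈ range n, t i • y i) - (x0 + r • ∑ i ∈ range n, t i • y i)‖ ≤ θ * r := by
  classical
  have hn1 : (0:ℝ) < (n:ℝ) + 1 := by positivity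
  have hL1 : 0 < Lc + 1 := by linarith
  obtain ⟨ε, hε, hεθ⟩ : ∃ ε : ℝ, 0 < ε ∧ (Lc + 1) * (n * ε) ≤ θ := by
    refine ⟨θ / ((Lc + 1) * (n + 1)), by positivity, ?_⟩
    have : (Lc + 1) * (n * (θ / ((Lc + 1) * (n + 1)))) = θ * (n / (n + 1)) := by
      field_simp
    rw [this]
    have h2 : (n:ℝ) / (n + 1) ≤ 1 := by
      rw [div_le_one hn1]; linarith
    nlinarith
  have hv : ∀ i, ∃ v ∈ Submodule.span ℝ K, ‖y i - v‖ < ε := by
    intro i
    obtain ⟨v, hv, hd'⟩ := hd.exists_dist_lt (y i) hε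
    exact ⟨v, hv, by rwa [dist_eq_norm] at hd'⟩
  choose v hvK hvy using hv
  have hTi : ∀ i, ∃ T : Finset X, (T : Set X) ⊆ K ∧ v i ∈ Submodule.span ℝ (T : Set X) :=
    fun i => Submodule.mem_span_finite_of_mem_span (hvK i)
  choose Ti hTiK hTiv using hTi
  set T : Finset X := (range n).biUnion Ti with hT
  have hTK : (T : Set X) ⊆ K := by
    intro κ hκ
    rw [hT, Finset.mem_coe, Finset.mem_biUnion] at hκ
    obtain ⟨i, _, hi⟩ := hκ
    exact hTiK i hi
  have hc : ∀ i, ∃ c : X → ℝ, i < n → ∑ κ ∈ T, c κ • κ = v i := by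
    intro i
    by_cases hi : i < n
    · have h1 : v i ∈ Submodule.span ℝ (T : Set X) := by
        refine Submodule.span_mono ?_ (hTiv i)
        intro κ hκ
        rw [hT, Finset.mem_coe, Finset.mem_biUnion]
        exact ⟨i, Finset.mem_range.mpr hi, hκ⟩
      obtain ⟨c, _, hc⟩ := Submodule.mem_span_finset.mp h1
      exact ⟨c, fun _ => hc⟩
    · exact ⟨0, fun h => absurd h hi⟩
  choose c hc using hc
  set S : ℝ := ∑ i ∈ range n, ∑ κ ∈ T, |c i κ| with hS
  have hS0 : 0 ≤ S := Finset.sum_nonneg (fun i _ => Finset.sum_nonneg (fun κ _ => abs_nonneg _))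
  set m : ℝ := (T.card : ℝ) with hm
  have hm0 : 0 ≤ m := Nat.cast_nonneg _
  set r : ℝ := 1 / ((m + 1) * (1 + S)) with hr
  have hr0 : 0 < r := by positivity
  have hrS : r * S ≤ 1 / (m + 1) := by
    rw [hr, div_mul_eq_mul_div, one_mul, div_le_div_iff₀ (by positivity) (by positivity)]
    nlinarith
  refine ⟨(1 / (m + 1)) • ∑ κ ∈ T, κ, r, hr0, ?_⟩
  intro t ht
  set x0 : X := (1 / (m + 1)) • ∑ κ ∈ T, κ with hx0
  set x' : X := x0 + r • ∑ i ∈ range n, t i • v i with hx'
  set q : X → ℝ := fun κ => ∑ i ∈ range n, t i * c i κ with hq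
  have hx'e : x' = ∑ κ ∈ T, (1 / (m + 1) + r * q κ) • κ := by
    have e1 : ∑ i ∈ range n, t i • v i = ∑ κ ∈ T, q κ • κ := by
      calc ∑ i ∈ range n, t i • v i = ∑ i ∈ range n, ∑ κ ∈ T, (t i * c i κ) • κ := by
            refine Finset.sum_congr rfl (fun i hi => ?_)
            rw [← hc i (Finset.mem_range.mp hi), Finset.smul_sum]
            refine Finset.sum_congr rfl (fun κ _ => ?_)
            rw [smul_smul]
        _ = ∑ κ ∈ T, ∑ i ∈ range n, (t i * c i κ) • κ := Finset.sum_comm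
        _ = ∑ κ ∈ T, q κ • κ := by
            refine Finset.sum_congr rfl (fun κ _ => ?_)
            rw [hq, Finset.sum_smul]
    rw [hx', hx0, e1, Finset.smul_sum, Finset.smul_sum, ← Finset.sum_add_distrib]
    refine Finset.sum_congr rfl (fun κ _ => ?_)
    rw [add_smul, smul_smul]
  have hqb : ∀ κ ∈ T, |q κ| ≤ ∑ i ∈ range n, |c i κ| := by
    intro κ _
    refine (Finset.abs_sum_le_sum_abs _ _).trans (Finset.sum_le_sum (fun i hi => ?_))
    rw [abs_mul]
    have := ht i (Finset.mem_range.mp hi)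
    have h2 := abs_nonneg (c i κ)
    nlinarith
  have hqS : ∑ κ ∈ T, |q κ| ≤ S := by
    calc ∑ κ ∈ T, |q κ| ≤ ∑ κ ∈ T, ∑ i ∈ range n, |c i κ| := Finset.sum_le_sum hqb
      _ = S := by rw [hS, Finset.sum_comm]
  have hx'K : x' ∈ K := by
    rw [hx'e]
    refine near_conv hK h0 T hTK _ ?_ ?_
    · intro κ hκ
      have h1 : |q κ| ≤ S := (Finset.single_le_sum (f := fun κ => |q κ|) (fun _ _ => abs_nonneg _) hκ).trans hqS
      have h2 : -S ≤ q κ := by linarith [neg_abs_le (q κ)]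
      have h3 : r * (-S) ≤ r * q κ := mul_le_mul_of_nonneg_left h2 hr0.le
      linarith
    · rw [Finset.sum_add_distrib, Finset.sum_const, nsmul_eq_mul, ← Finset.mul_sum]
      have h1 : ∑ κ ∈ T, q κ ≤ S := (Finset.sum_le_sum (fun κ _ => le_abs_self (q κ))).trans hqS
      have h2 : r * ∑ κ ∈ T, q κ ≤ r * S := mul_le_mul_of_nonneg_left h1 hr0.le
      have h3 : (T.card : ℝ) * (1 / (m + 1)) + 1 / (m + 1) = 1 := by
        rw [← hm]; field_simp
      linarith
  have hRx' := hfix x' hx'K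
  set x : X := x0 + r • ∑ i ∈ range n, t i • y i with hx
  have hxx : ‖x - x'‖ ≤ r * (n * ε) := by
    have e : x - x' = r • ∑ i ∈ range n, t i • (y i - v i) := by
      rw [hx, hx']
      simp only [smul_sub, Finset.sum_sub_distrib]
      abel
    rw [e, norm_smul, Real.norm_eq_abs, abs_of_pos hr0]
    refine mul_le_mul_of_nonneg_left ?_ hr0.le
    calc ‖∑ i ∈ range n, t i • (y i - v i)‖ ≤ ∑ i ∈ range n, ‖t i • (y i - v i)‖ := norm_sum_le _ _
      _ ≤ ∑ i ∈ range n, ε := by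
          refine Finset.sum_le_sum (fun i hi => ?_)
          rw [norm_smul, Real.norm_eq_abs]
          have h1 := ht i (Finset.mem_range.mp hi)
          have h2 := (hvy i).le
          have h3 := norm_nonneg (y i - v i)
          have h4 := abs_nonneg (t i)
          nlinarith
      _ = n * ε := by simp
  calc ‖R x - x‖ = ‖(R x - R x') + (x' - x)‖ := by rw [hRx']; congr 1; abel
    _ ≤ ‖R x - R x'‖ + ‖x' - x‖ := norm_add_le _ _
    _ ≤ Lc * ‖x - x'‖ + ‖x - x'‖ := by
        have h1 := hR x x'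
        rw [norm_sub_rev x' x]; linarith
    _ = (Lc + 1) * ‖x - x'‖ := by ring
    _ ≤ (Lc + 1) * (r * (n * ε)) := mul_le_mul_of_nonneg_left hxx hL1.le
    _ = r * ((Lc + 1) * (n * ε)) := by ring
    _ ≤ r * θ := mul_le_mul_of_nonneg_left hεθ hr0.le
    _ = θ * r := by ring


end Pool.Agent.Helper983.GC
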