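import Pool.Agent.Helper983.GC.Defs
import Pool.Agent.Helper983.GC.P_lp_facts
import Pool.Agent.Helper983.GC.P_e_norm
import Pool.Agent.Helper983.GC.P_nu_facts
import Pool.Agent.Helper983.GC.P_P_facts

set_option autoImplicit false

namespace Pool.Agent.Helper983.GC

open Finset MeasureTheory

variable (D : Dsg)



theorem ni_eZ_zero (k j : ℕ) (hj : D.N k ≤ j) : eZ D k j = 0 :=
  Subtype.ext (e_zero D k j hj)

/-- the part of level `k0` -/
noncomputable def ni_y (m J : ℕ) (δ : ℕ → ℝ) (x0 : Zs D) (k0 : Fin m)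
    (u : Fin m × Fin J → ℝ) : Zs D :=
  x0 + ∑ i : Fin J, (δ k0 * u (k0, i)) • eZ D k0 i

/-- the rest -/
noncomputable def ni_rest (m J : ℕ) (δ : ℕ → ℝ) (k0 : Fin m)
    (u : Fin m × Fin J → ℝ) : Zs D :=
  ∑ p : Fin m × Fin J, if p.1 = k0 then 0 else (δ p.1 * u p) • eZ D p.1 p.2

theorem ni_pt (m J : ℕ) (δ : ℕ → ℝ) (x0 : Zs D) (k0 : Fin m) (u : Fin m × Fin J → ℝ) :
    pt D m J δ x0 u = ni_y D m J δ x0 k0 u + ni_rest D m J δ k0 u := by
  unfold pt ni_y ni_rest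
  rw [add_assoc]
  congr 1
  have h1 : ∑ p : Fin m × Fin J, (δ p.1 * u p) • eZ D p.1 p.2 =
      ∑ p : Fin m × Fin J, ((if p.1 = k0 then (δ p.1 * u p) • eZ D p.1 p.2 else 0) +
        (if p.1 = k0 then 0 else (δ p.1 * u p) • eZ D p.1 p.2)) := by
    apply Finset.sum_congr rfl
    intro p _
    split_ifs <;> simp
  rw [h1, Finset.sum_add_distrib]
  congr 1
  rw [Fintype.sum_prod_type, Finset.sum_eq_single k0]
  · apply Finset.sum_congr rfl
    intro i _
    simp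
  · intro a _ ha
    apply Finset.sum_eq_zero
    intro b _
    rw [if_neg ha]
  · intro h
    exact absurd (Finset.mem_univ _) h

theorem ni_y_eq (m J : ℕ) (δ : ℕ → ℝ) (x0 : Zs D) (k0 : Fin m) (hJ : D.N k0 ≤ J)
    (u : Fin m × Fin J → ℝ) :
    ni_y D m J δ x0 k0 u = x0 + δ k0 • ∑ i ∈ range (D.N k0),
      (if h : i < J then u (k0, ⟨i, h⟩) else 0) • eZ D k0 i := by
  unfold ni_y
  congr 1
  rw [Finset.sum_subset (Finset.range_subset_range.2 hJ) (fun i _ hi => by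
    rw [ni_eZ_zero D k0 i (by simpa using hi), smul_zero]), Finset.sum_range, Finset.smul_sum]
  apply Finset.sum_congr rfl
  intro i _
  rw [dif_pos i.2, smul_smul]

theorem ni_y_cont (m J : ℕ) (δ : ℕ → ℝ) (x0 : Zs D) (k0 : Fin m) :
    Continuous (ni_y D m J δ x0 k0) := by
  unfold ni_y
  exact continuous_const.add (continuous_finsetSum _ fun i _ =>
    (continuous_const.mul (continuous_apply (k0, i))).smul continuous_const)

theorem ni_pt_cont (m J : ℕ) (δ : ℕ → ℝ) (x0 : Zs D) :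
    Continuous (pt D m J δ x0) := by
  unfold pt
  exact continuous_const.add (continuous_finsetSum _ fun p _ =>
    (continuous_const.mul (continuous_apply p)).smul continuous_const)

theorem ni_pt_bd (m J : ℕ) (δ : ℕ → ℝ) (hδ : ∀ k, 0 < δ k) (x0 : Zs D) (u : Fin m × Fin J → ℝ)
    (hu : ∀ p, |u p| ≤ 1) :
    ‖pt D m J δ x0 u - x0‖ ≤ ∑ p : Fin m × Fin J, δ p.1 * ‖eZ D p.1 p.2‖ := by
  unfold pt
  rw [add_sub_cancel_left]
  refine (norm_sum_le _ _).trans (Finset.sum_le_sum fun p _ => ?_)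
  rw [norm_smul, norm_mul, Real.norm_eq_abs, Real.norm_eq_abs, abs_of_pos (hδ _)]
  apply mul_le_mul_of_nonneg_right _ (norm_nonneg _)
  have := mul_le_mul_of_nonneg_left (hu p) (hδ p.1).le
  linarith

theorem ni_psi_int (m J : ℕ) (p0 : Fin m × Fin J) :
    Integrable (fun u : Fin m × Fin J → ℝ => psi (u p0)) (P (Fin m × Fin J)) :=
  (P_memLp _ p0).integrable (by norm_num)

theorem ni_int_smul (m J : ℕ) (p0 : Fin m × Fin J) {E : Type*} [NormedAddCommGroup E]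
    [NormedSpace ℝ E] (F : (Fin m × Fin J → ℝ) → E) (hF : Continuous F) (C : ℝ)
    (hC : ∀ u : Fin m × Fin J → ℝ, (∀ p, |u p| ≤ 1) → ‖F u‖ ≤ C) :
    Integrable (fun u : Fin m × Fin J → ℝ => psi (u p0) • F u) (P (Fin m × Fin J)) := by
  apply Integrable.mono' ((ni_psi_int m J p0).norm.mul_const C)
  · exact (ni_psi_int m J p0).aestronglyMeasurable.smul hF.aestronglyMeasurable
  · filter_upwards [P_bdd (Fin m × Fin J)] with u hu
    rw [norm_smul]
    exact mul_le_mul_of_nonneg_left (hC u hu) (norm_nonneg _)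

theorem ni_y_int (m J : ℕ) (δ : ℕ → ℝ) (x0 : Zs D) (k0 : Fin m) (j : Fin J) :
    ∫ u, psi (u (k0, j)) • ni_y D m J δ x0 k0 u ∂P (Fin m × Fin J) = δ k0 • eZ D k0 j := by
  have h1 : ∀ u : Fin m × Fin J → ℝ, psi (u (k0, j)) • ni_y D m J δ x0 k0 u =
      psi (u (k0, j)) • x0 +
        ∑ i : Fin J, (psi (u (k0, j)) * u (k0, i)) • (δ k0 • eZ D k0 i) := by
    intro u
    unfold ni_y
    rw [smul_add, Finset.smul_sum]
    congr 1
    apply Finset.sum_congr rfl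
    intro i _
    rw [smul_smul, smul_smul]
    congr 1
    ring
  have hi : ∀ i : Fin J, Integrable (fun u : Fin m × Fin J → ℝ => psi (u (k0, j)) * u (k0, i))
      (P (Fin m × Fin J)) := by
    intro i
    exact ni_int_smul m J (k0, j) (fun u => u (k0, i)) (continuous_apply _) 1 (fun u hu => hu _)
  simp only [h1]
  rw [integral_add, integral_smul_const, P_psi, zero_smul, zero_add, integral_finsetSum]
  · have h2 : ∀ i : Fin J, ∫ u, (psi (u (k0, j)) * u (k0, i)) • (δ k0 • eZ D k0 i)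
        ∂P (Fin m × Fin J) = if j = i then δ k0 • eZ D k0 i else 0 := by
      intro i
      rw [integral_smul_const, P_psi_mul]
      by_cases hji : j = i
      · rw [if_pos hji, if_pos (by rw [hji]), one_smul]
      · rw [if_neg hji, if_neg (by
          intro h
          exact hji (Prod.ext_iff.mp h).2), zero_smul]
    simp only [h2]
    rw [Finset.sum_ite_eq]
    simp
  · intro i _
    exact (hi i).smul_const _
  · exact (ni_psi_int m J (k0, j)).smul_const _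
  · exact integrable_finsetSum _ fun i _ => (hi i).smul_const _

theorem near_id (m J : ℕ) (δ : ℕ → ℝ) (hδ : ∀ k, 0 < δ k) (x0 : Zs D) (R : Zs D → Zs D)
    (Lc : ℝ) (hL : 0 ≤ Lc) (hR : ∀ x y, ‖R x - R y‖ ≤ Lc * ‖x - y‖)
    (k0 : Fin m) (hJ : D.N k0 ≤ J) (θ s : ℝ) (hθ : 0 < θ) (hs : 0 < s)
    (hn : ∀ t : ℕ → ℝ, (∀ i, i < D.N k0 → |t i| ≤ 1) →
      ‖R (x0 + δ k0 • ∑ i ∈ range (D.N k0), t i • eZ D k0 i) -
        (x0 + δ k0 • ∑ i ∈ range (D.N k0), t i • eZ D k0 i)‖ ≤ θ * δ k0)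
    (hz1 : Integrable (fun u : Fin m × Fin J → ℝ => ‖∑ p : Fin m × Fin J,
      if p.1 = k0 then 0 else (δ p.1 * u p) • eZ D p.1 p.2‖ ^ 2) (P (Fin m × Fin J)))
    (hz2 : ∫ u, ‖∑ p : Fin m × Fin J, if p.1 = k0 then 0 else (δ p.1 * u p) • eZ D p.1 p.2‖ ^ 2
      ∂P (Fin m × Fin J) ≤ 6 * s ^ 2) (j : Fin J) :
    ‖Tv D m J δ x0 R (k0, j) - eZ D k0 j‖ ≤ 11 / 2 * θ + 8 * Lc * s / δ k0 := by
  have hr := hδ k0
  change Integrable (fun u => ‖ni_rest D m J δ k0 u‖ ^ 2) (P (Fin m × Fin J)) at hz1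
  change ∫ u, ‖ni_rest D m J δ k0 u‖ ^ 2 ∂P (Fin m × Fin J) ≤ 6 * s ^ 2 at hz2
  have hRc : Continuous R :=
    (LipschitzWith.of_dist_le_mul (K := ⟨Lc, hL⟩) (fun x y => by
      rw [dist_eq_norm, dist_eq_norm]
      exact hR x y)).continuous
  -- the deviation from the identity on `y`
  have hdev : ∀ u : Fin m × Fin J → ℝ, (∀ p, |u p| ≤ 1) →
      ‖R (ni_y D m J δ x0 k0 u) - ni_y D m J δ x0 k0 u‖ ≤ θ * δ k0 := by
    intro u hu
    rw [ni_y_eq D m J δ x0 k0 hJ u]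
    apply hn
    intro i _
    split_ifs
    · exact hu _
    · simp
  have hpoint : ∀ u : Fin m × Fin J → ℝ, (∀ p, |u p| ≤ 1) →
      ‖R (pt D m J δ x0 u) - ni_y D m J δ x0 k0 u‖ ≤ Lc * ‖ni_rest D m J δ k0 u‖ + θ * δ k0 := by
    intro u hu
    have h1 := hR (pt D m J δ x0 u) (ni_y D m J δ x0 k0 u)
    rw [ni_pt D m J δ x0 k0 u, add_sub_cancel_left, ← ni_pt D m J δ x0 k0 u] at h1
    have h2 := hdev u hu
    calc ‖R (pt D m J δ x0 u) - ni_y D m J δ x0 k0 u‖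
        = ‖(R (pt D m J δ x0 u) - R (ni_y D m J δ x0 k0 u)) +
          (R (ni_y D m J δ x0 k0 u) - ni_y D m J δ x0 k0 u)‖ := by congr 1; abel
      _ ≤ _ := norm_add_le _ _
      _ ≤ _ := add_le_add h1 h2
  -- integrability
  set C : ℝ := ∑ p : Fin m × Fin J, δ p.1 * ‖eZ D p.1 p.2‖ with hC
  have hI1 : Integrable (fun u : Fin m × Fin J → ℝ => psi (u (k0, j)) • R (pt D m J δ x0 u))
      (P (Fin m × Fin J)) := by
    apply ni_int_smul m J (k0, j) _ (hRc.comp (ni_pt_cont D m J δ x0)) (‖R x0‖ + Lc * C)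
    intro u hu
    have h1 := hR (pt D m J δ x0 u) x0
    have h2 := ni_pt_bd D m J δ hδ x0 u hu
    have h3 : ‖R (pt D m J δ x0 u)‖ ≤ ‖R x0‖ + ‖R (pt D m J δ x0 u) - R x0‖ := by
      calc ‖R (pt D m J δ x0 u)‖ = ‖R x0 + (R (pt D m J δ x0 u) - R x0)‖ := by congr 1; abel
        _ ≤ _ := norm_add_le _ _
    have h4 := mul_le_mul_of_nonneg_left h2 hL
    calc _ ≤ _ := h3
      _ ≤ _ := by linarith
  have hI2 : Integrable (fun u : Fin m × Fin J → ℝ => psi (u (k0, j)) • ni_y D m J δ x0 k0 u)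
      (P (Fin m × Fin J)) := by
    apply ni_int_smul m J (k0, j) _ (ni_y_cont D m J δ x0 k0)
      (‖x0‖ + ∑ i : Fin J, δ k0 * ‖eZ D k0 i‖)
    intro u hu
    unfold ni_y
    refine (norm_add_le _ _).trans (add_le_add le_rfl ((norm_sum_le _ _).trans
      (Finset.sum_le_sum fun i _ => ?_)))
    rw [norm_smul, norm_mul, Real.norm_eq_abs, Real.norm_eq_abs, abs_of_pos (hδ _)]
    apply mul_le_mul_of_nonneg_right _ (norm_nonneg _)
    have := mul_le_mul_of_nonneg_left (hu (k0, i)) (hδ k0).le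
    linarith
  have hpsi2 : Integrable (fun u : Fin m × Fin J → ℝ => psi (u (k0, j)) ^ 2)
      (P (Fin m × Fin J)) := (P_memLp _ (k0, j)).integrable_sq
  have hpsi2v : ∫ u : Fin m × Fin J → ℝ, psi (u (k0, j)) ^ 2 ∂P (Fin m × Fin J) = 10 := by
    have h1 := P_psi_psi (Fin m × Fin J) (k0, j) (k0, j)
    rw [if_pos rfl] at h1
    rw [← h1]
    congr 1
    funext u
    ring
  -- the identity
  have hid : Tv D m J δ x0 R (k0, j) - eZ D k0 j =
      (δ k0)⁻¹ • ∫ u, psi (u (k0, j)) • (R (pt D m J δ x0 u) - ni_y D m J δ x0 k0 u)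
        ∂P (Fin m × Fin J) := by
    have h1 : ∫ u, psi (u (k0, j)) • (R (pt D m J δ x0 u) - ni_y D m J δ x0 k0 u)
        ∂P (Fin m × Fin J) = (∫ u, psi (u (k0, j)) • R (pt D m J δ x0 u) ∂P (Fin m × Fin J)) -
        ∫ u, psi (u (k0, j)) • ni_y D m J δ x0 k0 u ∂P (Fin m × Fin J) := by
      rw [← integral_sub hI1 hI2]
      congr 1
      funext u
      rw [smul_sub]
    rw [h1, ni_y_int, smul_sub, smul_smul, inv_mul_cancel₀ hr.ne', one_smul]
    rfl
  rw [hid, norm_smul, norm_inv, Real.norm_eq_abs, abs_of_pos hr]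
  -- the bound
  have hG : Integrable (fun u : Fin m × Fin J → ℝ =>
      Lc * (s / 2 * psi (u (k0, j)) ^ 2 + 1 / (2 * s) * ‖ni_rest D m J δ k0 u‖ ^ 2) +
      θ * δ k0 * (1 / 2 * psi (u (k0, j)) ^ 2 + 1 / 2)) (P (Fin m × Fin J)) :=
    (((hpsi2.const_mul _).add (hz1.const_mul _)).const_mul _).add
      (((hpsi2.const_mul _).add (integrable_const _)).const_mul _)
  have hb : ∀ᵐ u ∂P (Fin m × Fin J),
      ‖psi (u (k0, j)) • (R (pt D m J δ x0 u) - ni_y D m J δ x0 k0 u)‖ ≤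
      Lc * (s / 2 * psi (u (k0, j)) ^ 2 + 1 / (2 * s) * ‖ni_rest D m J δ k0 u‖ ^ 2) +
      θ * δ k0 * (1 / 2 * psi (u (k0, j)) ^ 2 + 1 / 2) := by
    filter_upwards [P_bdd (Fin m × Fin J)] with u hu
    rw [norm_smul, Real.norm_eq_abs]
    have h1 := hpoint u hu
    set a := |psi (u (k0, j))| with ha
    set b := ‖ni_rest D m J δ k0 u‖ with hb
    have ha0 : 0 ≤ a := abs_nonneg _
    have ha2 : psi (u (k0, j)) ^ 2 = a ^ 2 := (sq_abs _).symm
    rw [ha2]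
    have h2 : a * b ≤ s / 2 * a ^ 2 + 1 / (2 * s) * b ^ 2 := by
      have h3 : s / 2 * a ^ 2 + 1 / (2 * s) * b ^ 2 - a * b = (s * a - b) ^ 2 / (2 * s) := by
        field_simp
        ring
      have h4 : 0 ≤ (s * a - b) ^ 2 / (2 * s) := by positivity
      linarith
    have h3 : a ≤ 1 / 2 * a ^ 2 + 1 / 2 := by nlinarith [sq_nonneg (a - 1)]
    calc a * _ ≤ a * (Lc * b + θ * δ k0) := mul_le_mul_of_nonneg_left h1 ha0
      _ = Lc * (a * b) + θ * δ k0 * a := by ring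
      _ ≤ _ := add_le_add (mul_le_mul_of_nonneg_left h2 hL)
        (mul_le_mul_of_nonneg_left h3 (by positivity))
  have h1 := norm_integral_le_of_norm_le hG hb
  have h2 : ∫ u : Fin m × Fin J → ℝ,
      (Lc * (s / 2 * psi (u (k0, j)) ^ 2 + 1 / (2 * s) * ‖ni_rest D m J δ k0 u‖ ^ 2) +
      θ * δ k0 * (1 / 2 * psi (u (k0, j)) ^ 2 + 1 / 2)) ∂P (Fin m × Fin J) =
      Lc * (s / 2 * 10 + 1 / (2 * s) * ∫ u, ‖ni_rest D m J δ k0 u‖ ^ 2 ∂P (Fin m × Fin J)) +
      θ * δ k0 * (1 / 2 * 10 + 1 / 2) := by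
    have j1 : Integrable (fun u : Fin m × Fin J → ℝ => s / 2 * psi (u (k0, j)) ^ 2)
      (P (Fin m × Fin J)) := hpsi2.const_mul _
    have j2 : Integrable (fun u : Fin m × Fin J → ℝ => 1 / (2 * s) * ‖ni_rest D m J δ k0 u‖ ^ 2)
      (P (Fin m × Fin J)) := hz1.const_mul _
    have j3 : Integrable (fun u : Fin m × Fin J → ℝ =>
      Lc * (s / 2 * psi (u (k0, j)) ^ 2 + 1 / (2 * s) * ‖ni_rest D m J δ k0 u‖ ^ 2))
      (P (Fin m × Fin J)) := (j1.add j2).const_mul _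
    have j4 : Integrable (fun u : Fin m × Fin J → ℝ => 1 / 2 * psi (u (k0, j)) ^ 2)
      (P (Fin m × Fin J)) := hpsi2.const_mul _
    have j5 : Integrable (fun _ : Fin m × Fin J → ℝ => (1 / 2 : ℝ))
      (P (Fin m × Fin J)) := integrable_const _
    have j6 : Integrable (fun u : Fin m × Fin J → ℝ =>
      θ * δ k0 * (1 / 2 * psi (u (k0, j)) ^ 2 + 1 / 2))
      (P (Fin m × Fin J)) := (j4.add j5).const_mul _
    rw [integral_add j3 j6, integral_const_mul, integral_const_mul, integral_add j1 j2,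
      integral_add j4 j5, integral_const_mul, integral_const_mul, integral_const_mul, hpsi2v,
      integral_const]
    simp
  rw [h2] at h1
  have h3 : 1 / (2 * s) * ∫ u, ‖ni_rest D m J δ k0 u‖ ^ 2 ∂P (Fin m × Fin J) ≤ 3 * s := by
    calc 1 / (2 * s) * ∫ u, ‖ni_rest D m J δ k0 u‖ ^ 2 ∂P (Fin m × Fin J)
        ≤ 1 / (2 * s) * (6 * s ^ 2) := mul_le_mul_of_nonneg_left hz2 (by positivity)
      _ = 3 * s := by field_simp; ring
  have h4 : Lc * (s / 2 * 10 + 1 / (2 * s) * ∫ u, ‖ni_rest D m J δ k0 u‖ ^ 2 ∂P (Fin m × Fin J)) ≤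
      Lc * (8 * s) := mul_le_mul_of_nonneg_left (by linarith) hL
  calc (δ k0)⁻¹ * _ ≤ (δ k0)⁻¹ * (Lc * (8 * s) + θ * δ k0 * (1 / 2 * 10 + 1 / 2)) :=
        mul_le_mul_of_nonneg_left (h1.trans (by linarith)) (by positivity)
    _ = _ := by field_simp; ring

end Pool.Agent.Helper983.GC
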