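import Pool.Agent.Helper983.GC.Defs
import Pool.Agent.Helper983.GC.P_lp_facts
import Pool.Agent.Helper983.GC.P_P_facts
import Pool.Agent.Helper983.GC.P_moment

set_option autoImplicit false

namespace Pool.Agent.Helper983.GC

open Finset MeasureTheory

variable (D : Dsg)


theorem znorm_eF_le (k j : ℕ) (w : Om) : |eF D k j w| ≤ 1 := by
  unfold eF
  split_ifs with h1 h2 h3 h3
  · omega
  · simpa using D.A1 k j w.2
  · simpa using D.B1 w.1 j w.2
  · simp
  · simp

theorem znorm_eF_zero (k j : ℕ) (w : Om) (hj : D.N k ≤ j) : eF D k j w = 0 := by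
  unfold eF
  split_ifs with h1 h2 h3 h3
  · omega
  · rw [D.A0 k j _ hj]; simp
  · rw [D.B0 w.1 j w.2 (by rw [h3]; exact hj)]; simp
  · simp
  · rfl

theorem znorm_eF_W (k j : ℕ) (w : Om) (hw : w ∉ ({k, k - 1} : Finset ℕ) ×ˢ range (Mm k)) :
    eF D k j w = 0 := by
  unfold eF
  split_ifs with h1 h2 h3 h3
  · omega
  · exact absurd (Finset.mem_product.2 ⟨by simp [h2], Finset.mem_range.2 (h2 ▸ h1)⟩) hw
  · refine absurd (Finset.mem_product.2 ⟨?_, Finset.mem_range.2
      (h1.trans_le (Mm_mono (by omega)))⟩) hw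
    simp only [Finset.mem_insert, Finset.mem_singleton]
    omega
  · simp
  · rfl

theorem znorm_card (J n : ℕ) :
    ((Finset.univ : Finset (Fin J)).filter (fun j : Fin J => (j : ℕ) < n)).card ≤ n := by
  have := Finset.card_le_card_of_injOn (s := (Finset.univ : Finset (Fin J)).filter
    (fun j : Fin J => (j : ℕ) < n)) (t := range n) (fun j => (j : ℕ))
    (by
      intro j hj
      simp only [Finset.coe_filter, Finset.mem_univ, true_and] at hj
      simpa using hj)
    (Fin.val_injective.injOn)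
  simpa using this

theorem znorm_Cm_pos : 0 < Cm := by
  unfold Cm; positivity

theorem znorm (m J : ℕ) (k : Fin m) (hJ : D.N k ≤ J) :
    Integrable (fun u : Fin m × Fin J → ℝ => ‖∑ j : Fin J, u (k, j) • e D k j‖ ^ 40)
      (P (Fin m × Fin J)) ∧
    ∫ u, ‖∑ j : Fin J, u (k, j) • e D k j‖ ^ 40 ∂P (Fin m × Fin J) ≤
      2 * Cm * Mm k * (D.N k : ℝ) ^ 20 := by
  classical
  let W : Finset Om := ({(k : ℕ), (k : ℕ) - 1} : Finset ℕ) ×ˢ range (Mm k)
  let S0 : Finset (Fin J) := (Finset.univ : Finset (Fin J)).filter (fun j => (j : ℕ) < D.N k)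
  let S : Finset (Fin m × Fin J) := S0.map ⟨fun j => (k, j), fun a b h => by
    simpa using h⟩
  have hScard : S.card ≤ D.N k := by
    rw [Finset.card_map]
    exact znorm_card J (D.N k)
  let c : Om → Fin m × Fin J → ℝ := fun w p => eF D k p.2 w
  have hx : ∀ (u : Fin m × Fin J → ℝ) (w : Om),
      (∑ j : Fin J, u (k, j) • e D k j : L) w = ∑ p ∈ S, c w p * u p := by
    intro u w
    rw [lp.coeFn_sum, Finset.sum_apply]
    have h1 : ∑ p ∈ S, c w p * u p = ∑ j ∈ S0, eF D k j w * u (k, j) := by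
      rw [Finset.sum_map]
      rfl
    rw [h1, Finset.sum_filter]
    refine Finset.sum_congr rfl fun j _ => ?_
    rw [lp.coeFn_smul, Pi.smul_apply, e_apply, smul_eq_mul]
    split_ifs with h
    · ring
    · rw [znorm_eF_zero D k j w (by omega)]; simp
  have hnorm : ∀ u : Fin m × Fin J → ℝ, ‖∑ j : Fin J, u (k, j) • e D k j‖ ^ 40 =
      ∑ w ∈ W, (∑ p ∈ S, c w p * u p) ^ 40 := by
    intro u
    rw [norm_pow_fin _ W]
    · refine Finset.sum_congr rfl fun w _ => ?_
      rw [hx u w]
      exact Even.pow_abs (by decide) _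
    · intro w hw
      rw [hx u w]
      refine Finset.sum_eq_zero fun p _ => ?_
      have : c w p = 0 := znorm_eF_W D k p.2 w hw
      rw [this, zero_mul]
  have hint : ∀ w, Integrable (fun u : Fin m × Fin J → ℝ => (∑ p ∈ S, c w p * u p) ^ 40)
      (P (Fin m × Fin J)) := by
    intro w
    refine Integrable.of_bound ?_ ((S.card : ℝ) ^ 40) ?_
    · refine Continuous.aestronglyMeasurable ?_
      refine Continuous.pow ?_ 40
      refine continuous_finsetSum _ fun p _ => ?_
      exact continuous_const.mul (continuous_apply p)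
    · filter_upwards [P_bdd (Fin m × Fin J)] with u hu
      rw [norm_pow, Real.norm_eq_abs]
      refine pow_le_pow_left₀ (abs_nonneg _) ?_ 40
      calc |∑ p ∈ S, c w p * u p| ≤ ∑ p ∈ S, |c w p * u p| := Finset.abs_sum_le_sum_abs _ _
        _ ≤ ∑ p ∈ S, (1 : ℝ) := by
            refine Finset.sum_le_sum fun p _ => ?_
            rw [abs_mul]
            exact mul_le_one₀ (znorm_eF_le D k p.2 w) (abs_nonneg _) (hu p)
        _ = (S.card : ℝ) := by simp
  have heq : (fun u : Fin m × Fin J → ℝ => ‖∑ j : Fin J, u (k, j) • e D k j‖ ^ 40) =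
      fun u => ∑ w ∈ W, (∑ p ∈ S, c w p * u p) ^ 40 := funext hnorm
  constructor
  · rw [heq]
    exact integrable_finsetSum _ fun w _ => hint w
  · rw [heq, integral_finsetSum _ fun w _ => hint w]
    have h1 : ∀ w ∈ W, ∫ u : Fin m × Fin J → ℝ, (∑ p ∈ S, c w p * u p) ^ 40
        ∂P (Fin m × Fin J) ≤ Cm * (D.N k : ℝ) ^ 20 := by
      intro w _
      refine (moment _ S (c w) fun p => znorm_eF_le D k p.2 w).trans ?_
      refine mul_le_mul_of_nonneg_left ?_ znorm_Cm_pos.le
      exact pow_le_pow_left₀ (by positivity) (by exact_mod_cast hScard) 20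
    refine (Finset.sum_le_sum h1).trans ?_
    rw [Finset.sum_const, nsmul_eq_mul]
    have hWc : (W.card : ℝ) ≤ 2 * Mm k := by
      have : W.card ≤ 2 * Mm k := by
        rw [Finset.card_product, Finset.card_range]
        exact Nat.mul_le_mul_right _ Finset.card_le_two
      exact_mod_cast this
    have h2 : 0 ≤ Cm * (D.N k : ℝ) ^ 20 := mul_nonneg znorm_Cm_pos.le (by positivity)
    calc (W.card : ℝ) * (Cm * (D.N k : ℝ) ^ 20) ≤ (2 * Mm k) * (Cm * (D.N k : ℝ) ^ 20) :=
          mul_le_mul_of_nonneg_right hWc h2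
      _ = 2 * Cm * Mm k * (D.N k : ℝ) ^ 20 := by ring

end Pool.Agent.Helper983.GC
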