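import Pool.Agent.Helper983.GC.Defs
import Pool.Agent.Helper983.GC.P_lp_facts
import Pool.Agent.Helper983.GC.P_e_norm
import Pool.Agent.Helper983.GC.P_nu_facts
import Pool.Agent.Helper983.GC.P_P_facts
import Pool.Agent.Helper983.GC.P_znorm

set_option autoImplicit false

namespace Pool.Agent.Helper983.GC

open Finset MeasureTheory

variable (D : Dsg)



theorem rb_split (m J : ℕ) (k0 k1 : Fin m) (h01 : k0 ≠ k1) (x : Fin m × Fin J → Zs D) :
    ∑ p : Fin m × Fin J, (if p.1 = k0 then 0 else x p) =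
      ∑ j : Fin J, x (k1, j) + ∑ p : Fin m × Fin J, (if p.1 = k0 ∨ p.1 = k1 then 0 else x p) := by
  have h1 : ∑ j : Fin J, x (k1, j) = ∑ p : Fin m × Fin J, (if p.1 = k1 then x p else 0) := by
    rw [Fintype.sum_prod_type, Finset.sum_comm]
    apply Finset.sum_congr rfl
    intro j _
    simp
  rw [h1, ← Finset.sum_add_distrib]
  apply Finset.sum_congr rfl
  intro p _
  by_cases h0 : p.1 = k0
  · have : p.1 ≠ k1 := by rw [h0]; exact h01
    simp [h0, h01]
  · by_cases h2 : p.1 = k1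
    · have : k1 ≠ k0 := h01.symm
      simp [h2, this]
    · simp [h0, h2]

theorem rb_sq (s t : ℝ) (hs : 0 < s) (ht : 0 ≤ t) : t ^ 2 ≤ s ^ 2 + s ^ 2 * (t ^ 40 / s ^ 40) := by
  have e : t ^ 2 = s ^ 2 * (t / s) ^ 2 := by field_simp
  have e2 : t ^ 40 / s ^ 40 = (t / s) ^ 40 := by rw [div_pow]
  rw [e, e2]
  have h0 : 0 ≤ t / s := by positivity
  have hs2 : 0 ≤ s ^ 2 := by positivity
  rcases le_total (t / s) 1 with h | h
  · have : (t / s) ^ 2 ≤ 1 := pow_le_one₀ h0 h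
    have h3 : 0 ≤ s ^ 2 * (t / s) ^ 40 := by positivity
    nlinarith
  · have : (t / s) ^ 2 ≤ (t / s) ^ 40 := pow_le_pow_right₀ h (by norm_num)
    nlinarith [mul_le_mul_of_nonneg_left this hs2]

theorem rest_bound (m J : ℕ) (hm : 0 < m) (k0 k1 : Fin m) (h01 : k0 ≠ k1) (hJ : D.N k1 ≤ J)
    (δ : ℕ → ℝ) (s : ℝ) (hs : 0 < s) (hδ0 : ∀ k, 0 < δ k)
    (hδ : ∀ k : Fin m, k ≠ k0 → k ≠ k1 → δ k * (m * J * (2 * Mm k)) ≤ s)
    (hδ1 : δ k1 ^ 40 * (2 * Cm * Mm k1 * (D.N k1 : ℝ) ^ 20) ≤ s ^ 40) :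
    Integrable (fun u : Fin m × Fin J → ℝ => ‖∑ p : Fin m × Fin J,
      if p.1 = k0 then 0 else (δ p.1 * u p) • eZ D p.1 p.2‖ ^ 2) (P (Fin m × Fin J)) ∧
    ∫ u, ‖∑ p : Fin m × Fin J, if p.1 = k0 then 0 else (δ p.1 * u p) • eZ D p.1 p.2‖ ^ 2
      ∂P (Fin m × Fin J) ≤ 6 * s ^ 2 := by
  have hbd := P_bdd (Fin m × Fin J)
  have hcont : Continuous (fun u : Fin m × Fin J → ℝ => ‖∑ p : Fin m × Fin J,
      if p.1 = k0 then (0 : Zs D) else (δ p.1 * u p) • eZ D p.1 p.2‖ ^ 2) := by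
    apply Continuous.pow
    apply Continuous.norm
    apply continuous_finsetSum
    intro p _
    split_ifs
    · exact continuous_const
    · exact (continuous_const.mul (continuous_apply p)).smul continuous_const
  have heZ : ∀ k j : ℕ, ‖eZ D k j‖ ≤ 2 * Mm k := fun k j => e_norm D k j
  -- integrability
  have hint : Integrable (fun u : Fin m × Fin J → ℝ => ‖∑ p : Fin m × Fin J,
      if p.1 = k0 then (0 : Zs D) else (δ p.1 * u p) • eZ D p.1 p.2‖ ^ 2) (P (Fin m × Fin J)) := by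
    apply Integrable.of_bound hcont.aestronglyMeasurable
      ((∑ p : Fin m × Fin J, δ p.1 * ‖eZ D p.1 p.2‖) ^ 2)
    filter_upwards [hbd] with u hu
    rw [Real.norm_eq_abs, abs_of_nonneg (by positivity)]
    apply pow_le_pow_left₀ (norm_nonneg _)
    refine (norm_sum_le _ _).trans (Finset.sum_le_sum ?_)
    intro p _
    split_ifs
    · rw [norm_zero]
      exact mul_nonneg (hδ0 _).le (norm_nonneg _)
    · rw [norm_smul, Real.norm_eq_abs, abs_mul, abs_of_pos (hδ0 _)]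
      have := hu p
      have h1 := hδ0 p.1
      have h2 := norm_nonneg (eZ D p.1 p.2)
      calc δ p.1 * |u p| * ‖eZ D p.1 p.2‖ ≤ δ p.1 * 1 * ‖eZ D p.1 p.2‖ := by gcongr
        _ = δ p.1 * ‖eZ D p.1 p.2‖ := by rw [mul_one]
  refine ⟨hint, ?_⟩
  obtain ⟨hz1, hz2⟩ := znorm D m J k1 hJ
  have hdom : Integrable (fun u : Fin m × Fin J → ℝ => 4 * s ^ 2 + 2 * s ^ 2 *
      (δ k1 ^ 40 / s ^ 40) * ‖∑ j : Fin J, u (k1, j) • e D k1 j‖ ^ 40) (P (Fin m × Fin J)) :=
    (integrable_const _).add (hz1.const_mul _)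
  have hle : ∀ᵐ u ∂P (Fin m × Fin J), ‖∑ p : Fin m × Fin J,
      if p.1 = k0 then (0 : Zs D) else (δ p.1 * u p) • eZ D p.1 p.2‖ ^ 2 ≤
      4 * s ^ 2 + 2 * s ^ 2 *
      (δ k1 ^ 40 / s ^ 40) * ‖∑ j : Fin J, u (k1, j) • e D k1 j‖ ^ 40 := by
    filter_upwards [hbd] with u hu
    rw [rb_split D m J k0 k1 h01 (fun p => (δ p.1 * u p) • eZ D p.1 p.2)]
    have hn2 : ‖∑ p : Fin m × Fin J, (if p.1 = k0 ∨ p.1 = k1 then (0 : Zs D)
        else (δ p.1 * u p) • eZ D p.1 p.2)‖ ≤ s := by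
      refine (norm_sum_le _ _).trans ?_
      have hm' : (0 : ℝ) < m := by exact_mod_cast hm
      rcases Nat.eq_zero_or_pos J with hJ0 | hJ0
      · subst hJ0
        simp [hs.le]
      have hJ' : (0 : ℝ) < J := by exact_mod_cast hJ0
      have : ∀ p ∈ (Finset.univ : Finset (Fin m × Fin J)),
          ‖(if p.1 = k0 ∨ p.1 = k1 then (0 : Zs D) else (δ p.1 * u p) • eZ D p.1 p.2)‖
            ≤ s / (m * J) := by
        intro p _
        split_ifs with hp
        · rw [norm_zero]; positivity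
        · push Not at hp
          have h1 := hδ p.1 hp.1 hp.2
          rw [norm_smul, Real.norm_eq_abs, abs_mul, abs_of_pos (hδ0 _)]
          rw [le_div_iff₀ (by positivity)]
          have h2 := hu p
          have h3 := heZ p.1 p.2
          have h4 := hδ0 p.1
          have h5 := norm_nonneg (eZ D p.1 p.2)
          calc δ p.1 * |u p| * ‖eZ D p.1 p.2‖ * (m * J)
              ≤ δ p.1 * 1 * (2 * Mm p.1) * (m * J) := by gcongr
            _ = δ p.1 * (m * J * (2 * Mm p.1)) := by ring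
            _ ≤ s := h1
      refine (Finset.sum_le_sum this).trans ?_
      rw [Finset.sum_const, Finset.card_univ, Fintype.card_prod, Fintype.card_fin,
        Fintype.card_fin, nsmul_eq_mul]
      push_cast
      rw [mul_div_cancel₀ _ (by positivity)]
    have hn1 : ‖∑ j : Fin J, (δ ((k1, j) : Fin m × Fin J).1 * u (k1, j)) •
        eZ D ((k1, j) : Fin m × Fin J).1 ((k1, j) : Fin m × Fin J).2‖
        = δ k1 * ‖∑ j : Fin J, u (k1, j) • e D k1 j‖ := by
      have h1 : ∑ j : Fin J, (δ ((k1, j) : Fin m × Fin J).1 * u (k1, j)) •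
        eZ D ((k1, j) : Fin m × Fin J).1 ((k1, j) : Fin m × Fin J).2
          = δ k1 • ∑ j : Fin J, u (k1, j) • eZ D k1 j := by
        rw [Finset.smul_sum]
        apply Finset.sum_congr rfl
        intro j _
        rw [smul_smul]
      rw [h1, norm_smul, Real.norm_eq_abs, abs_of_pos (hδ0 _)]
      congr 1
      have h2 : ‖∑ j : Fin J, u (k1, j) • eZ D k1 j‖
          = ‖((∑ j : Fin J, u (k1, j) • eZ D k1 j : Zs D) : L)‖ := rfl
      rw [h2, Submodule.coe_sum]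
      rfl
    have h3 := norm_add_le (∑ j : Fin J, (δ ((k1, j) : Fin m × Fin J).1 * u (k1, j)) •
        eZ D ((k1, j) : Fin m × Fin J).1 ((k1, j) : Fin m × Fin J).2)
        (∑ p : Fin m × Fin J, (if p.1 = k0 ∨ p.1 = k1 then (0 : Zs D)
        else (δ p.1 * u p) • eZ D p.1 p.2))
    rw [hn1] at h3
    generalize hW : ‖∑ j : Fin J, u (k1, j) • e D k1 j‖ = W at *
    have hW0 : 0 ≤ W := by rw [← hW]; exact norm_nonneg _
    have h4 := rb_sq s (δ k1 * W) hs (mul_nonneg (hδ0 _).le hW0)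
    have h5 : ‖(∑ j : Fin J, (δ ((k1, j) : Fin m × Fin J).1 * u (k1, j)) •
        eZ D ((k1, j) : Fin m × Fin J).1 ((k1, j) : Fin m × Fin J).2) +
        ∑ p : Fin m × Fin J, (if p.1 = k0 ∨ p.1 = k1 then (0 : Zs D)
        else (δ p.1 * u p) • eZ D p.1 p.2)‖ ≤ δ k1 * W + s := h3.trans (by linarith)
    have h6 := pow_le_pow_left₀ (norm_nonneg _) h5 2
    have h7 : 2 * s ^ 2 * (δ k1 ^ 40 / s ^ 40) * W ^ 40
        = 2 * (s ^ 2 * ((δ k1 * W) ^ 40 / s ^ 40)) := by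
      rw [mul_pow]; ring
    rw [h7]
    refine h6.trans ?_
    nlinarith [sq_nonneg (δ k1 * W - s)]
  refine (integral_mono_ae hint hdom hle).trans ?_
  rw [integral_add (integrable_const _) (hz1.const_mul _), integral_const, integral_const_mul]
  simp only [probReal_univ, smul_eq_mul, one_mul]
  have hs40 : 0 < s ^ 40 := by positivity
  have h8 : 2 * s ^ 2 * (δ k1 ^ 40 / s ^ 40) *
      ∫ u, ‖∑ j : Fin J, u (k1, j) • e D k1 j‖ ^ 40 ∂P (Fin m × Fin J) ≤ 2 * s ^ 2 := by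
    have hpos : 0 < δ k1 ^ 40 := by have := hδ0 k1; positivity
    calc 2 * s ^ 2 * (δ k1 ^ 40 / s ^ 40) *
      ∫ u, ‖∑ j : Fin J, u (k1, j) • e D k1 j‖ ^ 40 ∂P (Fin m × Fin J)
        ≤ 2 * s ^ 2 * (δ k1 ^ 40 / s ^ 40) * (2 * Cm * Mm k1 * (D.N k1 : ℝ) ^ 20) := by
          apply mul_le_mul_of_nonneg_left hz2
          positivity
      _ = 2 * s ^ 2 * ((δ k1 ^ 40 * (2 * Cm * Mm k1 * (D.N k1 : ℝ) ^ 20)) / s ^ 40) := by ring
      _ ≤ 2 * s ^ 2 * 1 := by
          apply mul_le_mul_of_nonneg_left _ (by positivity)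
          rw [div_le_one hs40]
          exact hδ1
      _ = 2 * s ^ 2 := by ring
  linarith

end Pool.Agent.Helper983.GC
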