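import Pool.Agent.Helper983.GC.Defs
import Pool.Agent.Helper983.GC.P_lp_facts

set_option autoImplicit false

namespace Pool.Agent.Helper983.GC

open Finset MeasureTheory

variable (D : Dsg)



theorem tails_block (x : L) (c : ℝ) (hc : 0 < c) :
    ∀ᶠ n in Filter.atTop, ∑ g ∈ range (Mm n), |x (n, g)| ^ 40 ≤ c := by
  have h := (hasSum_norm_pow x).summable
  have h1 : Summable fun n : ℕ => ∑' g : ℕ, |x (n, g)| ^ 40 := h.prod
  have h2 := h1.tendsto_atTop_zero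
  have h3 := (h2.eventually (gt_mem_nhds hc))
  filter_upwards [h3] with n hn
  refine le_trans ?_ hn.le
  exact (h.prod_factor n).sum_le_tsum _ (fun g _ => by positivity)

theorem tails (K : Set L) (hK : IsCompact K) (ε : ℝ) (hε : 0 < ε) (n0 : ℕ) :
    ∃ n, n0 < n ∧ ∀ x ∈ K, ∑ g ∈ range (Mm n), |x (n, g)| ^ 40 ≤ ε ^ 40 := by
  obtain ⟨t, -, htf, htc⟩ := hK.finite_cover_balls (e := ε / 4) (by positivity)
  have h1 : ∀ᶠ n in Filter.atTop, ∀ x ∈ t, ∑ g ∈ range (Mm n), |x (n, g)| ^ 40 ≤ (ε / 4) ^ 40 := by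
    rw [Filter.eventually_all_finite htf]
    intro x _
    exact tails_block x _ (by positivity)
  obtain ⟨n, hn, hn0⟩ := (h1.and (Filter.eventually_gt_atTop n0)).exists
  refine ⟨n, hn0, ?_⟩
  intro x hx
  obtain ⟨c, hc⟩ := Set.mem_iUnion.1 (htc hx)
  obtain ⟨hct, hxc⟩ := Set.mem_iUnion.1 hc
  rw [mem_ball_iff_norm] at hxc
  have h2 : ∀ g, |x (n, g)| ^ 40 ≤ 2 ^ 39 * (|c (n, g)| ^ 40 + |(x - c) (n, g)| ^ 40) := by
    intro g
    have e1 : x (n, g) = c (n, g) + (x - c) (n, g) := by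
      rw [lp.coeFn_sub, Pi.sub_apply]; ring
    have h3 : |x (n, g)| ≤ |c (n, g)| + |(x - c) (n, g)| := by
      conv_lhs => rw [e1]
      exact abs_add_le _ _
    calc |x (n, g)| ^ 40 ≤ (|c (n, g)| + |(x - c) (n, g)|) ^ 40 :=
          pow_le_pow_left₀ (abs_nonneg _) h3 _
      _ ≤ 2 ^ (40 - 1) * (|c (n, g)| ^ 40 + |(x - c) (n, g)| ^ 40) :=
          add_pow_le (abs_nonneg _) (abs_nonneg _) 40
  have h4 : ∑ g ∈ range (Mm n), |(x - c) (n, g)| ^ 40 ≤ (ε / 4) ^ 40 := by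
    have h5 := sum_le_norm_pow (x - c) ({n} ×ˢ range (Mm n))
    rw [Finset.sum_product, Finset.sum_singleton] at h5
    exact h5.trans (pow_le_pow_left₀ (norm_nonneg _) hxc.le _)
  calc ∑ g ∈ range (Mm n), |x (n, g)| ^ 40
      ≤ ∑ g ∈ range (Mm n), 2 ^ 39 * (|c (n, g)| ^ 40 + |(x - c) (n, g)| ^ 40) :=
        Finset.sum_le_sum (fun g _ => h2 g)
    _ = 2 ^ 39 * (∑ g ∈ range (Mm n), |c (n, g)| ^ 40 +
        ∑ g ∈ range (Mm n), |(x - c) (n, g)| ^ 40) := by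
        rw [← Finset.mul_sum, Finset.sum_add_distrib]
    _ ≤ 2 ^ 39 * ((ε / 4) ^ 40 + (ε / 4) ^ 40) := by
        have := hn c hct
        gcongr
    _ ≤ ε ^ 40 := by
        have : (2:ℝ) ^ 39 * ((ε / 4) ^ 40 + (ε / 4) ^ 40) = (1 / 2) ^ 40 * ε ^ 40 := by
          rw [div_pow]
          norm_num
          ring
        rw [this]
        have h6 : (0:ℝ) ≤ ε ^ 40 := by positivity
        have h7 : ((1:ℝ) / 2) ^ 40 ≤ 1 := by norm_num
        nlinarith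

end Pool.Agent.Helper983.GC
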