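import Pool.Agent.Helper983.GC.Defs
import Pool.Agent.Helper983.GC.P_lp_facts
import Pool.Agent.Helper983.GC.P_al_facts
import Pool.Agent.Helper983.GC.P_nu_facts
import Pool.Agent.Helper983.GC.P_P_facts

set_option autoImplicit false

namespace Pool.Agent.Helper983.GC

open Finset MeasureTheory

variable (D : Dsg)



theorem ts_power_mean (M : ℕ) (q : ℕ → ℝ) (w μ : ℝ) (hM : 0 < M) (hw : 0 < w) (hμ : 0 < μ)
    (hμM : μ ^ 40 = M) (hq : ∑ g ∈ range M, |q g| ^ 40 ≤ w ^ 40) :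
    ∑ g ∈ range M, q g ^ 2 ≤ M * (w ^ 2 / μ ^ 2) := by
  have hM' : (0 : ℝ) < M := by exact_mod_cast hM
  have h1 := pow_sum_le_card_mul_sum_pow (s := range M) (f := fun g => q g ^ 2)
    (fun g _ => sq_nonneg _) 19
  rw [Finset.card_range] at h1
  have h2 : ∑ g ∈ range M, (q g ^ 2) ^ (19 + 1) ≤ w ^ 40 := by
    refine le_trans (le_of_eq ?_) hq
    apply Finset.sum_congr rfl
    intro g _
    rw [← sq_abs (q g), ← pow_mul]
  have h3 : (∑ g ∈ range M, q g ^ 2) ^ (19 + 1) ≤ (M * (w ^ 2 / μ ^ 2)) ^ (19 + 1) := by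
    refine h1.trans ?_
    calc (M : ℝ) ^ 19 * ∑ g ∈ range M, (q g ^ 2) ^ (19 + 1) ≤ (M : ℝ) ^ 19 * w ^ 40 := by gcongr
      _ = (M * (w ^ 2 / μ ^ 2)) ^ (19 + 1) := by
        rw [mul_pow, div_pow, ← pow_mul, ← pow_mul]
        norm_num
        rw [hμM]
        field_simp
  exact le_of_pow_le_pow_left₀ (by norm_num) (by positivity) h3

/-- the coefficient functional as a continuous linear map -/
noncomputable def tsL (k j : ℕ) : Zs D →L[ℝ] ℝ :=
  LinearMap.mkContinuous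
    { toFun := fun x => al D k j (x : L)
      map_add' := fun x y => al_add D k j x y
      map_smul' := fun c x => al_smul D k j c x } 1
    (fun x => by
      rw [one_mul]
      exact al_abs_le D k j x)

theorem tsL_apply (k j : ℕ) (x : Zs D) : tsL D k j x = al D k j (x : L) := rfl

theorem ts_int {ι : Type} [Fintype ι] (p : ι) (Q : (ι → ℝ) → Zs D)
    (hQc : Continuous Q) (B : ℝ) (hQb : ∀ u, ‖Q u‖ ≤ B) :
    Integrable (fun u : ι → ℝ => psi (u p) • Q u) (P ι) := by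
  have h1 : Integrable (fun u : ι → ℝ => psi (u p)) (P ι) := (P_memLp ι p).integrable (by norm_num)
  apply Integrable.mono' (h1.norm.mul_const B)
  · exact h1.aestronglyMeasurable.smul hQc.aestronglyMeasurable
  · refine Filter.Eventually.of_forall fun u => ?_
    rw [norm_smul]
    exact mul_le_mul_of_nonneg_left (hQb u) (norm_nonneg _)

theorem ts_Y_memLp {ι : Type} [Fintype ι] (N : ℕ) (ix : ℕ → ι) (a : ℕ → ℝ) :
    MemLp (fun u : ι → ℝ => ∑ j ∈ range N, a j * psi (u (ix j))) 2 (P ι) :=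
  memLp_finsetSum _ fun j _ => (P_memLp ι (ix j)).const_mul (a j)

theorem ts_Y_sq {ι : Type} [Fintype ι] [DecidableEq ι] (N : ℕ) (ix : ℕ → ι)
    (hix : ∀ j < N, ∀ j' < N, ix j = ix j' → j = j') (a : ℕ → ℝ) (ha : ∀ j, |a j| ≤ 1) :
    ∫ u : ι → ℝ, (∑ j ∈ range N, a j * psi (u (ix j))) ^ 2 ∂P ι ≤ 10 * N := by
  have h1 : ∀ u : ι → ℝ, (∑ j ∈ range N, a j * psi (u (ix j))) ^ 2 =
      ∑ j ∈ range N, ∑ j' ∈ range N, (a j * a j') * (psi (u (ix j)) * psi (u (ix j'))) := by
    intro u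
    rw [sq, Finset.sum_mul_sum]
    apply Finset.sum_congr rfl
    intro j _
    apply Finset.sum_congr rfl
    intro j' _
    ring
  have hint : ∀ j j' : ℕ, Integrable (fun u : ι → ℝ =>
      (a j * a j') * (psi (u (ix j)) * psi (u (ix j')))) (P ι) := fun j j' =>
    ((P_memLp ι (ix j)).integrable_mul (P_memLp ι (ix j'))).const_mul _
  simp_rw [h1]
  rw [integral_finsetSum _ fun j _ => integrable_finsetSum _ fun j' _ => hint j j']
  calc ∑ j ∈ range N, ∫ u : ι → ℝ, ∑ j' ∈ range N,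
        (a j * a j') * (psi (u (ix j)) * psi (u (ix j'))) ∂P ι
      ≤ ∑ j ∈ range N, (10 : ℝ) := by
        apply Finset.sum_le_sum
        intro j hj
        rw [Finset.mem_range] at hj
        rw [integral_finsetSum _ fun j' _ => hint j j']
        rw [Finset.sum_eq_single j]
        · rw [integral_const_mul, P_psi_psi, if_pos rfl]
          have h2 := ha j
          rw [abs_le] at h2
          nlinarith
        · intro j' hj' hne
          rw [Finset.mem_range] at hj'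
          rw [integral_const_mul, P_psi_psi, if_neg, mul_zero]
          intro h3
          exact hne (hix j' hj' j hj h3.symm)
        · intro h3
          exact absurd (Finset.mem_range.2 hj) h3
    _ = 10 * N := by
        rw [Finset.sum_const, Finset.card_range, nsmul_eq_mul, mul_comm]

theorem ts_bound {ι : Type} [Fintype ι] [DecidableEq ι] (N M : ℕ) (hN0 : 0 < N) (hM0 : 0 < M)
    (ix : ℕ → ι) (hixinj : ∀ j < N, ∀ j' < N, ix j = ix j' → j = j') (a : ℕ → ℕ → ℝ)
    (ha : ∀ j g, |a j g| ≤ 1) (q : (ι → ℝ) → ℕ → ℝ) (w μ : ℝ) (hw : 0 < w) (hμ : 0 < μ)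
    (hμM : μ ^ 40 = M) (hq : ∀ u, ∑ g ∈ range M, |q u g| ^ 40 ≤ w ^ 40) (F : (ι → ℝ) → ℝ)
    (hF : ∀ u, F u = (∑ g ∈ range M, (∑ j ∈ range N, a j g * psi (u (ix j))) * q u g) / M) :
    |∫ u, F u ∂P ι| ≤ 4 * (w * Real.sqrt N / μ) := by
  have hM' : (0 : ℝ) < M := by exact_mod_cast hM0
  have hN' : (0 : ℝ) < N := by exact_mod_cast hN0
  obtain ⟨Y, hY⟩ : ∃ Y : ℕ → (ι → ℝ) → ℝ, Y = fun g u => ∑ j ∈ range N, a j g * psi (u (ix j)) :=
    ⟨_, rfl⟩
  have hFY : ∀ u, F u = (∑ g ∈ range M, Y g u * q u g) / M := by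
    intro u
    rw [hF, hY]
  obtain ⟨lam, hlam⟩ : ∃ lam : ℝ, lam = w / (3 * μ * Real.sqrt N) := ⟨_, rfl⟩
  have hsq : 0 < Real.sqrt N := Real.sqrt_pos.2 hN'
  have hlam0 : 0 < lam := by
    rw [hlam]
    exact div_pos hw (mul_pos (mul_pos three_pos hμ) hsq)
  have hFG : ∀ u, ‖F u‖ ≤
      (lam / 2 * ∑ g ∈ range M, Y g u ^ 2 + 1 / (2 * lam) * (M * (w ^ 2 / μ ^ 2))) / M := by
    intro u
    rw [hFY, Real.norm_eq_abs, abs_div, abs_of_pos hM']
    apply div_le_div_of_nonneg_right _ hM'.le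
    have h1 := ts_power_mean M (q u) w μ hM0 hw hμ hμM (hq u)
    calc |∑ g ∈ range M, Y g u * q u g|
        ≤ ∑ g ∈ range M, |Y g u * q u g| := Finset.abs_sum_le_sum_abs _ _
      _ ≤ ∑ g ∈ range M, (lam / 2 * Y g u ^ 2 + 1 / (2 * lam) * q u g ^ 2) := by
          apply Finset.sum_le_sum
          intro g _
          rw [abs_mul]
          have e1 : lam / 2 * Y g u ^ 2 + 1 / (2 * lam) * q u g ^ 2 - |Y g u| * |q u g| =
              (lam * |Y g u| - |q u g|) ^ 2 / (2 * lam) := by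
            rw [← sq_abs (Y g u), ← sq_abs (q u g)]
            field_simp
            ring
          have e2 : 0 ≤ (lam * |Y g u| - |q u g|) ^ 2 / (2 * lam) := by positivity
          linarith
      _ = lam / 2 * ∑ g ∈ range M, Y g u ^ 2 +
          1 / (2 * lam) * ∑ g ∈ range M, q u g ^ 2 := by
          rw [Finset.sum_add_distrib, Finset.mul_sum, Finset.mul_sum]
      _ ≤ _ := by gcongr
  have hYint : ∀ g, Integrable (fun u => Y g u ^ 2) (P ι) := fun g => by
    rw [hY]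
    exact (ts_Y_memLp N ix (fun j => a j g)).integrable_sq
  have hGint : Integrable (fun u => (lam / 2 * ∑ g ∈ range M, Y g u ^ 2 +
      1 / (2 * lam) * (M * (w ^ 2 / μ ^ 2))) / M) (P ι) :=
    (((integrable_finsetSum _ fun g _ => hYint g).const_mul _).add
      (integrable_const _)).div_const _
  have h1 : ‖∫ u, F u ∂P ι‖ ≤ ∫ u, (lam / 2 * ∑ g ∈ range M, Y g u ^ 2 +
      1 / (2 * lam) * (M * (w ^ 2 / μ ^ 2))) / M ∂P ι :=
    norm_integral_le_of_norm_le hGint (Filter.Eventually.of_forall hFG)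
  have h2 : ∫ u, (lam / 2 * ∑ g ∈ range M, Y g u ^ 2 +
      1 / (2 * lam) * (M * (w ^ 2 / μ ^ 2))) / M ∂P ι ≤
      (lam / 2 * (M * (10 * N)) + 1 / (2 * lam) * (M * (w ^ 2 / μ ^ 2))) / M := by
    rw [integral_div, integral_add ((integrable_finsetSum _ fun g _ => hYint g).const_mul _)
      (integrable_const _), integral_const_mul, integral_finsetSum _ fun g _ => hYint g,
      integral_const]
    simp only [probReal_univ, one_smul]
    apply div_le_div_of_nonneg_right _ hM'.le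
    have h3 : ∑ g ∈ range M, ∫ u, Y g u ^ 2 ∂P ι ≤ M * (10 * N) := by
      calc ∑ g ∈ range M, ∫ u, Y g u ^ 2 ∂P ι
          ≤ ∑ g ∈ range M, (10 * N : ℝ) := by
            apply Finset.sum_le_sum
            intro g _
            rw [hY]
            exact ts_Y_sq N ix hixinj (fun j => a j g) (fun j => ha j g)
        _ = M * (10 * N) := by
            rw [Finset.sum_const, Finset.card_range, nsmul_eq_mul]
    gcongr
  have h3 : (lam / 2 * (M * (10 * N)) + 1 / (2 * lam) * (M * (w ^ 2 / μ ^ 2))) / M =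
      19 / 6 * (w * Real.sqrt N / μ) := by
    have hs2 : Real.sqrt N ^ 2 = N := Real.sq_sqrt hN'.le
    rw [hlam]
    field_simp
    rw [hs2]
    ring
  rw [Real.norm_eq_abs] at h1
  have h5 : 0 < w * Real.sqrt N / μ := by positivity
  rw [h3] at h2
  linarith

theorem ts_alg (N M : ℕ) (a : ℕ → ℕ → ℝ) (p q : ℕ → ℝ) :
    ∑ j ∈ range N, p j * ((∑ g ∈ range M, a j g * q g) / M) =
      (∑ g ∈ range M, (∑ j ∈ range N, a j g * p j) * q g) / M := by
  simp_rw [Finset.sum_mul, mul_div_assoc', Finset.mul_sum]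
  rw [← Finset.sum_div, Finset.sum_comm]
  congr 1
  apply Finset.sum_congr rfl
  intro g _
  apply Finset.sum_congr rfl
  intro j _
  ring

theorem trace_small (m J : ℕ) (k : Fin m) (hJ : D.N k ≤ J) (Q : (Fin m × Fin J → ℝ) → Zs D)
    (hQc : Continuous Q) (B : ℝ) (hQb : ∀ u, ‖Q u‖ ≤ B) (w : ℝ) (hw : 0 < w)
    (hQ : ∀ u, ∑ g ∈ range (Mm k), |(Q u : L) (k, g)| ^ 40 ≤ w ^ 40)
    (μ : ℝ) (hμ : 0 < μ) (hμM : μ ^ 40 = Mm k) :
    |(∑ j ∈ range (D.N k), if h : j < J then
        al D k j ((∫ u, psi (u (k, ⟨j, h⟩)) • Q u ∂P (Fin m × Fin J) : Zs D) : L) else 0) / D.N k|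
      ≤ 4 * w / (Real.sqrt (D.N k) * μ) := by
  have hN0 : 0 < D.N k := D.Npos k
  have hJ0 : 0 < J := by omega
  have hM0 : 0 < Mm k := by unfold Mm; positivity
  have hN' : (0 : ℝ) < D.N k := by exact_mod_cast hN0
  obtain ⟨ix, hixe⟩ : ∃ ix : ℕ → Fin m × Fin J, ∀ j (h : j < J), ix j = (k, ⟨j, h⟩) := by
    refine ⟨fun j => (k, if h : j < J then ⟨j, h⟩ else ⟨0, hJ0⟩), ?_⟩
    intro j h
    simp only [h, dif_pos]
  have hixinj : ∀ j < D.N k, ∀ j' < D.N k, ix j = ix j' → j = j' := by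
    intro j hj j' hj' h
    rw [hixe j (by omega), hixe j' (by omega)] at h
    have h2 := (Prod.mk.inj h).2
    exact congrArg Fin.val h2
  -- rewrite
  have hintj : ∀ j, Integrable (fun u : Fin m × Fin J → ℝ => psi (u (ix j)) * al D k j (Q u))
      (P (Fin m × Fin J)) := by
    intro j
    have h1 := (tsL D k j).integrable_comp (ts_int D (ix j) Q hQc B hQb)
    refine h1.congr (Filter.Eventually.of_forall fun u => ?_)
    simp only [map_smul, smul_eq_mul, tsL_apply]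
  have hsum : (∑ j ∈ range (D.N k), if h : j < J then
        al D k j ((∫ u, psi (u (k, ⟨j, h⟩)) • Q u ∂P (Fin m × Fin J) : Zs D) : L) else 0) =
      ∫ u : Fin m × Fin J → ℝ, ∑ j ∈ range (D.N k), psi (u (ix j)) * al D k j (Q u)
        ∂P (Fin m × Fin J) := by
    rw [integral_finsetSum _ fun j _ => hintj j]
    apply Finset.sum_congr rfl
    intro j hj
    rw [Finset.mem_range] at hj
    have hjJ : j < J := by omega
    rw [dif_pos hjJ, ← hixe j hjJ, ← tsL_apply,
      ← ContinuousLinearMap.integral_comp_comm _ (ts_int D (ix j) Q hQc B hQb)]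
    apply integral_congr_ae
    refine Filter.Eventually.of_forall fun u => ?_
    simp only [map_smul, smul_eq_mul, tsL_apply]
  rw [hsum]
  have h4 := ts_bound (D.N k) (Mm k) hN0 hM0 ix hixinj (fun j g => D.A k j g)
    (fun j g => D.A1 k j g) (fun u g => (Q u : L) (k, g)) w μ hw hμ hμM hQ
    (fun u => ∑ j ∈ range (D.N k), psi (u (ix j)) * al D k j (Q u)) (fun u => ts_alg (D.N k) (Mm k)
        (fun j g => D.A k j g) (fun j => psi (u (ix j))) (fun g => (Q u : L) (k, g)))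
  rw [abs_div, abs_of_pos hN', div_le_div_iff₀ hN' (by positivity)]
  have hsq : 0 < Real.sqrt (D.N k) := Real.sqrt_pos.2 hN'
  calc |∫ u : Fin m × Fin J → ℝ, ∑ j ∈ range (D.N k), psi (u (ix j)) * al D k j (Q u)
        ∂P (Fin m × Fin J)| * (Real.sqrt (D.N k) * μ)
      ≤ 4 * (w * Real.sqrt (D.N k) / μ) * (Real.sqrt (D.N k) * μ) :=
        mul_le_mul_of_nonneg_right h4 (mul_pos hsq hμ).le
    _ = 4 * w * (Real.sqrt (D.N k) ^ 2) := by
        rw [mul_comm (Real.sqrt (D.N k)) μ, ← mul_assoc, mul_assoc 4,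
          div_mul_cancel₀ _ hμ.ne']
        ring
    _ = 4 * w * D.N k := by rw [Real.sq_sqrt hN'.le]

end Pool.Agent.Helper983.GC
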