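import Pool.Agent.Helper983.GC.Defs
import Pool.Agent.Helper983.GC.P_lp_facts
import Pool.Agent.Helper983.GC.P_al_facts
import Pool.Agent.Helper983.GC.P_al_child
import Pool.Agent.Helper983.GC.P_phi_norm
import Pool.Agent.Helper983.GC.P_bt_step
import Pool.Agent.Helper983.GC.P_e_norm
import Pool.Agent.Helper983.GC.P_nu_facts
import Pool.Agent.Helper983.GC.P_P_facts
import Pool.Agent.Helper983.GC.P_moment
import Pool.Agent.Helper983.GC.P_smooth
import Pool.Agent.Helper983.GC.P_near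
import Pool.Agent.Helper983.GC.P_tails
import Pool.Agent.Helper983.GC.P_znorm
import Pool.Agent.Helper983.GC.P_rest_bound
import Pool.Agent.Helper983.GC.P_trace_small
import Pool.Agent.Helper983.GC.P_lin_bound
import Pool.Agent.Helper983.GC.P_near_id

set_option autoImplicit false

namespace Pool.Agent.Helper983.GC

open Finset MeasureTheory

variable (D : Dsg)



theorem nr_Mm (k : ℕ) : 0 < (Mm k : ℝ) := by
  have : 0 < Mm k := by unfold Mm; positivity
  exact_mod_cast this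

theorem nr_Cm : 0 < 2 * Cm := by unfold Cm; positivity

attribute [local irreducible] Mm Cm

theorem nr_root (x : ℝ) (hx : 0 < x) : ∃ κ : ℝ, 0 < κ ∧ κ ^ 40 = x := by
  refine ⟨x ^ (((40 : ℕ) : ℝ)⁻¹), Real.rpow_pos_of_pos hx _, ?_⟩
  exact Real.rpow_inv_natCast_pow hx.le (by norm_num)

theorem nr_block {E : Type*} [AddCommGroup E] [Module ℝ E] (m J k n : ℕ) (hk : k < m) (hn : n ≤ J)
    (a : ℕ → ℝ) (ha : ∀ j, n ≤ j → a j = 0) (F : ℕ → ℕ → E) :
    ∑ p : Fin m × Fin J, (if (p.1 : ℕ) = k then a p.2 else 0) • F p.1 p.2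
      = ∑ j ∈ range n, a j • F k j := by
  rw [Fintype.sum_prod_type, Finset.sum_eq_single (⟨k, hk⟩ : Fin m)]
  · simp only [if_true]
    rw [← Finset.sum_range (fun j => a j • F k j)]
    symm
    apply Finset.sum_subset
    · intro j hj; rw [Finset.mem_range] at hj ⊢; omega
    · intro j _ hj
      rw [Finset.mem_range, not_lt] at hj
      rw [ha j hj, zero_smul]
  · intro b _ hb
    refine Finset.sum_eq_zero fun j _ => ?_
    have : ¬ ((b : ℕ) = k) := fun h => hb (Fin.ext h)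
    simp only [this, if_false, zero_smul]
  · intro h; exact absurd (Finset.mem_univ _) h

theorem nr_sum {E : Type*} [AddCommGroup E] [Module ℝ E] (m J k g : ℕ) (hk : k + 1 < m)
    (h1 : D.N (k + 1) ≤ J) (h0 : D.N k ≤ J) (F : ℕ → ℕ → E) :
    ∑ p : Fin m × Fin J, ((if (p.1 : ℕ) = k + 1 then D.B k p.2 g / D.N (k + 1) else 0)
      - (if (p.1 : ℕ) = k then D.A k p.2 g / D.N k else 0)) • F p.1 p.2
      = (∑ i ∈ range (D.N (k + 1)), (D.B k i g / D.N (k + 1)) • F (k + 1) i)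
        - ∑ j ∈ range (D.N k), (D.A k j g / D.N k) • F k j := by
  have e1 := nr_block m J (k + 1) (D.N (k + 1)) hk h1 (fun i => D.B k i g / D.N (k + 1))
    (fun j hj => by simp only [D.B0 k j g hj, zero_div]) F
  have e2 := nr_block m J k (D.N k) (by omega) h0 (fun i => D.A k i g / D.N k)
    (fun j hj => by simp only [D.A0 k j g hj, zero_div]) F
  rw [← e1, ← e2, ← Finset.sum_sub_distrib]
  refine Finset.sum_congr rfl fun p _ => ?_
  rw [sub_smul]

/-- the averaged derivatives as a family indexed by natural numbers -/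
noncomputable def VZ (m J : ℕ) (δ : ℕ → ℝ) (x0 : Zs D) (R : Zs D → Zs D) (k j : ℕ) : Zs D :=
  if h : k < m ∧ j < J then Tv D m J δ x0 R (⟨k, h.1⟩, ⟨j, h.2⟩) else 0

theorem VZ_eq (m J : ℕ) (δ : ℕ → ℝ) (x0 : Zs D) (R : Zs D → Zs D) (p : Fin m × Fin J) :
    VZ D m J δ x0 R p.1 p.2 = Tv D m J δ x0 R p := by
  unfold VZ
  rw [dif_pos ⟨p.1.2, p.2.2⟩]

theorem nr_tel (b : ℕ → ℝ) (Lc : ℝ) (n0 n1 : ℕ) (h01 : n0 ≤ n1)
    (h : ∀ k, n0 ≤ k → k < n1 → |b (k + 1) - b k| ≤ Lc * (64 * (3 / 4 : ℝ) ^ k)) :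
    |b n1 - b n0| ≤ Lc * 256 * ((3 / 4 : ℝ) ^ n0 - (3 / 4) ^ n1) := by
  induction n1, h01 using Nat.le_induction with
  | base => simp
  | succ n hn ih =>
    have h1 := ih (fun k hk hk' => h k hk (by omega))
    have h2 := h n hn (by omega)
    have h3 : b (n + 1) - b n0 = (b (n + 1) - b n) + (b n - b n0) := by ring
    rw [h3]
    refine le_trans (abs_add_le _ _) ?_
    have h4 : (3 / 4 : ℝ) ^ (n + 1) = (3 / 4) ^ n * (3 / 4) := pow_succ _ _
    rw [h4]
    linarith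

theorem nr_step (m J k : ℕ) (hk : k + 1 < m) (h1 : D.N (k + 1) ≤ J) (h0 : D.N k ≤ J)
    (δ : ℕ → ℝ) (hδ : ∀ k, 0 < δ k) (x0 : Zs D) (R : Zs D → Zs D)
    (Lc : ℝ) (hL : 0 ≤ Lc) (hR : ∀ x y, ‖R x - R y‖ ≤ Lc * ‖x - y‖) :
    |bt D (k + 1) (fun k j => ((VZ D m J δ x0 R k j : Zs D) : L))
      - bt D k (fun k j => ((VZ D m J δ x0 R k j : Zs D) : L))| ≤ Lc * (64 * (3 / 4 : ℝ) ^ k) := by
  apply bt_step D
  · intro i; exact (VZ D m J δ x0 R (k + 1) i).2
  · intro g hg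
    set v : Fin m × Fin J → ℝ := fun p => (if (p.1 : ℕ) = k + 1 then D.B k p.2 g / D.N (k + 1) else 0)
      - (if (p.1 : ℕ) = k then D.A k p.2 g / D.N k else 0) with hv
    have a1 := lin_bound D m J δ hδ x0 R Lc hL hR v
    have a2 : ∑ p, v p • Tv D m J δ x0 R p
        = (∑ i ∈ range (D.N (k + 1)), (D.B k i g / D.N (k + 1)) • VZ D m J δ x0 R (k + 1) i)
        - ∑ j ∈ range (D.N k), (D.A k j g / D.N k) • VZ D m J δ x0 R k j := by
      rw [← nr_sum D m J k g hk h1 h0 (VZ D m J δ x0 R)]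
      refine Finset.sum_congr rfl fun p _ => ?_
      rw [VZ_eq]
    have a3 : ∑ p : Fin m × Fin J, v p • eZ D p.1 p.2
        = (∑ i ∈ range (D.N (k + 1)), (D.B k i g / D.N (k + 1)) • eZ D (k + 1) i)
        - ∑ j ∈ range (D.N k), (D.A k j g / D.N k) • eZ D k j :=
      nr_sum D m J k g hk h1 h0 (eZ D)
    rw [a2, a3] at a1
    have a4 : ‖(∑ i ∈ range (D.N (k + 1)), (D.B k i g / D.N (k + 1)) • eZ D (k + 1) i)
        - ∑ j ∈ range (D.N k), (D.A k j g / D.N k) • eZ D k j‖ ≤ 64 * (3 / 4 : ℝ) ^ k := by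
      have := phi_norm D k g hg
      refine le_trans (le_of_eq ?_) this
      rw [Submodule.coe_norm]
      simp only [Submodule.coe_sub, Submodule.coe_sum, Submodule.coe_smul, eZ_coe]
    have a5 : ‖(∑ i ∈ range (D.N (k + 1)), (D.B k i g / D.N (k + 1)) • ((VZ D m J δ x0 R (k + 1) i : Zs D) : L))
        - ∑ j ∈ range (D.N k), (D.A k j g / D.N k) • ((VZ D m J δ x0 R k j : Zs D) : L)‖
        = ‖(∑ i ∈ range (D.N (k + 1)), (D.B k i g / D.N (k + 1)) • VZ D m J δ x0 R (k + 1) i)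
        - ∑ j ∈ range (D.N k), (D.A k j g / D.N k) • VZ D m J δ x0 R k j‖ := by
      symm
      rw [Submodule.coe_norm]
      simp only [Submodule.coe_sub, Submodule.coe_sum, Submodule.coe_smul]
    rw [a5]
    exact le_trans a1 (mul_le_mul_of_nonneg_left a4 hL)

theorem nr_cont (R : Zs D → Zs D) (Lc : ℝ) (hL : 0 ≤ Lc) (hR : ∀ x y, ‖R x - R y‖ ≤ Lc * ‖x - y‖) :
    Continuous R := by
  have : LipschitzWith (Real.toNNReal Lc) R := by
    apply LipschitzWith.of_dist_le_mul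
    intro x y
    rw [dist_eq_norm, dist_eq_norm, Real.coe_toNNReal _ hL]
    exact hR x y
  exact this.continuous

theorem nr_pt_cont (m J : ℕ) (δ : ℕ → ℝ) (x0 : Zs D) : Continuous (fun u => pt D m J δ x0 u) := by
  unfold pt
  apply continuous_const.add
  apply continuous_finsetSum
  intro p _
  exact (continuous_const.mul (continuous_apply p)).smul continuous_const

theorem no_retract (K : Set (Zs D)) (hK : IsCompact K) (hc : Convex ℝ K) (h0 : (0 : Zs D) ∈ K)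
    (hd : Dense ((Submodule.span ℝ K : Submodule ℝ (Zs D)) : Set (Zs D))) (R : Zs D → Zs D)
    (Lc : ℝ) (hL : 0 ≤ Lc) (hR : ∀ x y, ‖R x - R y‖ ≤ Lc * ‖x - y‖) (hRK : ∀ x, R x ∈ K)
    (hfix : ∀ x ∈ K, R x = x) : False := by
  -- (1)
  obtain ⟨n0, hn0⟩ : ∃ n0 : ℕ, Lc * 256 * (3 / 4 : ℝ) ^ n0 ≤ 1 / 8 := by
    have : Filter.Tendsto (fun n : ℕ => Lc * 256 * (3 / 4 : ℝ) ^ n) Filter.atTop (nhds (Lc * 256 * 0)) :=
      (tendsto_pow_atTop_nhds_zero_of_lt_one (by norm_num) (by norm_num)).const_mul _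
    rw [mul_zero] at this
    exact (this.eventually (ge_mem_nhds (show (0 : ℝ) < 1 / 8 by norm_num))).exists
  -- (2)
  obtain ⟨x0, r, hr, hnear⟩ := near K hc h0 hd R Lc hL hR hfix (D.N n0) (fun i => eZ D n0 i) (1 / 64)
    (by norm_num)
  have hCm : 0 < 2 * Cm := nr_Cm
  obtain ⟨κ, hκ, hκ40⟩ := nr_root (2 * Cm) hCm
  obtain ⟨s, hs_def⟩ : ∃ s : ℝ, s = r / (64 * (Lc + 1)) := ⟨_, rfl⟩
  have hs : 0 < s := by rw [hs_def]; positivity
  obtain ⟨w, hw_def⟩ : ∃ w : ℝ, w = s / (64 * κ) := ⟨_, rfl⟩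
  have hw : 0 < w := by rw [hw_def]; positivity
  -- (3)
  obtain ⟨n1, hn01, htail⟩ := tails ((fun z : Zs D => (z : L)) '' K) (hK.image continuous_subtype_val) w hw n0
  obtain ⟨m, hm_def⟩ : ∃ m : ℕ, m = n1 + 1 := ⟨_, rfl⟩
  obtain ⟨J, hJ_def⟩ : ∃ J : ℕ, J = (range (n1 + 1)).sup D.N + 1 := ⟨_, rfl⟩
  have hJ : ∀ k, k ≤ n1 → D.N k ≤ J := by
    intro k hk
    have := Finset.le_sup (f := D.N) (Finset.mem_range.mpr (show k < n1 + 1 by omega))
    omega
  have hMm : ∀ k, 0 < (Mm k : ℝ) := nr_Mm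
  obtain ⟨μ, hμ, hμ40⟩ := nr_root (Mm n1 : ℝ) (hMm n1)
  have hN : ∀ k, 0 < (D.N k : ℝ) := fun k => by exact_mod_cast D.Npos k
  have hm0 : (0 : ℝ) < m := by
    have : 0 < m := by omega
    exact_mod_cast this
  have hJ0 : (0 : ℝ) < J := by
    have : 0 < J := by omega
    exact_mod_cast this
  obtain ⟨δ, hδ_def⟩ : ∃ δ : ℕ → ℝ, δ = fun k => if k = n0 then r else if k = n1 then
    s / (κ * μ * Real.sqrt (D.N n1)) else s / (m * J * (2 * Mm n1)) := ⟨_, rfl⟩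
  have hsqrt : 0 < Real.sqrt (D.N n1) := Real.sqrt_pos.mpr (hN n1)
  have hδ : ∀ k, 0 < δ k := by
    intro k
    simp only [hδ_def]
    have := hMm n1
    split_ifs
    · exact hr
    · positivity
    · positivity
  have hδn0 : δ n0 = r := by simp only [hδ_def, if_true]
  have hδn1 : δ n1 = s / (κ * μ * Real.sqrt (D.N n1)) := by
    simp only [hδ_def]
    rw [if_neg (by omega), if_pos trivial]
  let k0 : Fin m := ⟨n0, by omega⟩
  let k1 : Fin m := ⟨n1, by omega⟩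
  have hk01 : k0 ≠ k1 := by
    intro h
    have := congrArg Fin.val h
    simp only [k0, k1] at this
    omega
  have hrest := rest_bound D m J (by omega) k0 k1 hk01 (hJ n1 le_rfl) δ s hs hδ (by
    intro k hk0 hk1
    have e1 : (k : ℕ) ≠ n0 := fun h => hk0 (Fin.ext h)
    have e2 : (k : ℕ) ≠ n1 := fun h => hk1 (Fin.ext h)
    have e3 : δ k = s / (m * J * (2 * Mm n1)) := by
      simp only [hδ_def]
      rw [if_neg e1, if_neg e2]
    have hMk : (Mm k : ℝ) ≤ Mm n1 := by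
      exact_mod_cast Mm_mono (by have := k.2; omega)
    have := hMm n1
    rw [e3, div_mul_eq_mul_div, div_le_iff₀ (by positivity)]
    apply mul_le_mul_of_nonneg_left _ hs.le
    apply mul_le_mul_of_nonneg_left _ (by positivity)
    linarith) (by
    change δ n1 ^ 40 * (2 * Cm * Mm n1 * (D.N n1 : ℝ) ^ 20) ≤ s ^ 40
    have e1 : Real.sqrt (D.N n1) ^ 40 = (D.N n1 : ℝ) ^ 20 := by
      rw [show (40 : ℕ) = 2 * 20 by norm_num, pow_mul, Real.sq_sqrt (hN n1).le]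
    have e2 : (κ * μ * Real.sqrt (D.N n1)) ^ 40 = 2 * Cm * Mm n1 * (D.N n1 : ℝ) ^ 20 := by
      rw [mul_pow, mul_pow, hκ40, hμ40, e1]
    rw [hδn1, div_pow, e2]
    have := hMm n1
    have := hN n1
    rw [div_mul_cancel₀ _ (by positivity)])
  -- (4)
  have hnid := near_id D m J δ hδ x0 R Lc hL hR k0 (hJ n0 hn01.le) (1 / 64) s (by norm_num) hs (by
    intro t ht
    change ‖R (x0 + δ n0 • ∑ i ∈ range (D.N n0), t i • eZ D n0 i) -
        (x0 + δ n0 • ∑ i ∈ range (D.N n0), t i • eZ D n0 i)‖ ≤ 1 / 64 * δ n0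
    rw [hδn0]
    exact hnear t ht) hrest.1 hrest.2
  have hbound : 11 / 2 * (1 / 64) + 8 * Lc * s / δ k0 ≤ 1 / 4 := by
    change 11 / 2 * (1 / 64) + 8 * Lc * s / δ n0 ≤ 1 / 4
    have e1 : 8 * Lc * s / δ n0 = Lc / (8 * (Lc + 1)) := by
      rw [hδn0, hs_def]; field_simp; ring
    have e2 : Lc / (8 * (Lc + 1)) ≤ 1 / 8 := by
      rw [div_le_div_iff₀ (by positivity) (by norm_num)]; linarith
    rw [e1]
    linarith
  obtain ⟨V, hV_def⟩ : ∃ V : ℕ → ℕ → L, V = fun k j => ((VZ D m J δ x0 R k j : Zs D) : L) := ⟨_, rfl⟩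
  have hb0 : 3 / 4 ≤ bt D n0 V := by
    unfold bt
    rw [le_div_iff₀ (hN n0)]
    have e1 : ∀ j ∈ range (D.N n0), (3 / 4 : ℝ) ≤ al D n0 j (V n0 j) := by
      intro j hj
      rw [Finset.mem_range] at hj
      have hjJ : j < J := lt_of_lt_of_le hj (hJ n0 hn01.le)
      have e2 := hnid ⟨j, hjJ⟩
      have e3 : VZ D m J δ x0 R n0 j = Tv D m J δ x0 R (k0, ⟨j, hjJ⟩) := by
        unfold VZ
        rw [dif_pos ⟨by omega, hjJ⟩]
      have e4 : V n0 j = e D n0 j + (V n0 j - e D n0 j) := by abel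
      rw [e4, al_add, al_e D n0 j hj]
      have e5 := al_abs_le D n0 j (V n0 j - e D n0 j)
      have e6 : ‖V n0 j - e D n0 j‖ ≤ 1 / 4 := by
        have e7 : ‖V n0 j - e D n0 j‖ = ‖Tv D m J δ x0 R (k0, ⟨j, hjJ⟩) - eZ D k0 (⟨j, hjJ⟩ : Fin J)‖ := by
          rw [← e3, Submodule.coe_norm, Submodule.coe_sub, eZ_coe, hV_def]
        rw [e7]
        exact le_trans e2 hbound
      have := (abs_le.mp e5).1
      linarith
    calc 3 / 4 * (D.N n0 : ℝ) = ∑ _j ∈ range (D.N n0), (3 / 4 : ℝ) := by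
          rw [Finset.sum_const, Finset.card_range, nsmul_eq_mul]; ring
      _ ≤ _ := Finset.sum_le_sum e1
  have hb1 : |bt D n1 V| ≤ 1 / 16 := by
    obtain ⟨B, hB⟩ := hK.isBounded.exists_norm_le
    have e1 := trace_small D m J k1 (hJ n1 le_rfl) (fun u => R (pt D m J δ x0 u))
      ((nr_cont D R Lc hL hR).comp (nr_pt_cont D m J δ x0)) B (fun u => hB _ (hRK _)) w hw
      (fun u => htail _ ⟨_, hRK _, rfl⟩) μ hμ hμ40
    have e2 : bt D n1 V = (δ n1)⁻¹ * ((∑ j ∈ range (D.N k1), if h : j < J then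
        al D k1 j ((∫ u, psi (u (k1, ⟨j, h⟩)) • R (pt D m J δ x0 u) ∂P (Fin m × Fin J) : Zs D) : L) else 0)
          / D.N k1) := by
      unfold bt
      rw [← mul_div_assoc, Finset.mul_sum]
      congr 1
      refine Finset.sum_congr rfl fun j hj => ?_
      rw [Finset.mem_range] at hj
      have hjJ : j < J := lt_of_lt_of_le hj (hJ n1 le_rfl)
      rw [dif_pos hjJ, ← al_smul]
      congr 1
      simp only [hV_def]
      unfold VZ
      rw [dif_pos ⟨by omega, hjJ⟩]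
      unfold Tv
      rfl
    rw [e2, abs_mul, abs_of_pos (inv_pos.mpr (hδ n1))]
    have e3 := mul_le_mul_of_nonneg_left e1 (inv_pos.mpr (hδ n1)).le
    refine le_trans e3 (le_of_eq ?_)
    change (δ n1)⁻¹ * (4 * w / (Real.sqrt (D.N n1) * μ)) = 1 / 16
    rw [hδn1, hw_def]
    field_simp
    norm_num
  have htel := nr_tel (fun k => bt D k V) Lc n0 n1 hn01.le (by
    intro k hk hk'
    rw [hV_def]
    exact nr_step D m J k (by omega) (hJ _ (by omega)) (hJ _ (by omega)) δ hδ x0 R Lc hL hR)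
  have h1 : Lc * 256 * ((3 / 4 : ℝ) ^ n0 - (3 / 4) ^ n1) ≤ 1 / 8 := by
    have : 0 ≤ Lc * 256 * (3 / 4 : ℝ) ^ n1 := by positivity
    linarith
  have h2 := (abs_le.mp htel).1
  have h3 := (abs_le.mp hb1).2
  linarith

end Pool.Agent.Helper983.GC
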